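import Pool.Agent.H248.TW.Defs

/-!
# The monomials in the key polynomials are a basis
-/

set_option autoImplicit false

namespace Pool.Agent.H248.TW

open Polynomial Module

/-- the key polynomials are monic -/
theorem Xs_monic (K : Type) [Field K] : ∀ j : ℕ, (Xs K (j + 1)).Monic ∧
    (Xs K (j + 1)).natDegree = 2 ^ j
  | 0 => by
    show (X : K[X][X]).Monic ∧ (X : K[X][X]).natDegree = 2 ^ 0
    exact ⟨monic_X, natDegree_X⟩
  | 1 => by
    show (X ^ 2 - (C X) ^ 3 : K[X][X]).Monic ∧ (X ^ 2 - (C X) ^ 3 : K[X][X]).natDegree = 2 ^ 1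
    have h1 : ((C X : K[X][X]) ^ 3).natDegree < ((X : K[X][X]) ^ 2).natDegree := by
      rw [← C_pow, natDegree_C, natDegree_X_pow]
      norm_num
    refine ⟨(monic_X_pow 2).sub_of_left (degree_lt_degree h1), ?_⟩
    rw [natDegree_sub_eq_left_of_natDegree_lt h1, natDegree_X_pow]
    norm_num
  | (j + 2) => by
    obtain ⟨m1, d1⟩ := Xs_monic K j
    obtain ⟨m2, d2⟩ := Xs_monic K (j + 1)
    show (Xs K (j + 2) ^ 2 - C X * Xs K (j + 1)).Monic ∧
      (Xs K (j + 2) ^ 2 - C X * Xs K (j + 1)).natDegree = 2 ^ (j + 2)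
    have hd : (Xs K (j + 2) ^ 2).natDegree = 2 ^ (j + 2) := by
      rw [m2.natDegree_pow, d2]
      ring
    have h1 : (C X * Xs K (j + 1)).natDegree < (Xs K (j + 2) ^ 2).natDegree := by
      rw [hd]
      refine lt_of_le_of_lt (natDegree_C_mul_le _ _) ?_
      rw [d1]
      exact Nat.pow_lt_pow_right (by norm_num) (by omega)
    refine ⟨(m2.pow 2).sub_of_left (degree_lt_degree h1), ?_⟩
    rw [natDegree_sub_eq_left_of_natDegree_lt h1, hd]

/-- the value of a set of digits -/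
def dig {r : ℕ} (ε : Finset (Fin r)) : ℕ := ∑ j ∈ ε, 2 ^ (j : ℕ)

theorem dig_map {r : ℕ} (ε : Finset (Fin r)) :
    dig ε = ∑ i ∈ ε.map Fin.valEmbedding, 2 ^ i := by
  rw [dig, Finset.sum_map]
  rfl

theorem dig_lt {r : ℕ} (ε : Finset (Fin r)) : dig ε < 2 ^ r := by
  rw [dig_map]
  refine Nat.geomSum_lt le_rfl fun k hk => ?_
  rw [Finset.mem_map] at hk
  obtain ⟨j, -, rfl⟩ := hk
  exact j.2

theorem dig_inj {r : ℕ} : Function.Injective (dig (r := r)) := by
  intro ε ε' h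
  rw [dig_map, dig_map] at h
  exact Finset.map_injective _ (Finset.geomSum_injective le_rfl h)

theorem dig_surj {r : ℕ} {m : ℕ} (hm : m < 2 ^ r) : ∃ ε : Finset (Fin r), dig ε = m := by
  have h1 : Function.Bijective (fun ε : Finset (Fin r) => (⟨dig ε, dig_lt ε⟩ : Fin (2 ^ r))) := by
    rw [Fintype.bijective_iff_injective_and_card]
    refine ⟨fun ε ε' h => dig_inj (congrArg Fin.val h), ?_⟩
    rw [Fintype.card_finset, Fintype.card_fin, Fintype.card_fin]
  obtain ⟨ε, hε⟩ := h1.2 ⟨m, hm⟩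
  exact ⟨ε, congrArg Fin.val hε⟩

/-- all numbers are `k 2 ^ r + ∑ j ∈ ε, 2 ^ j` -/
theorem num_bij (r : ℕ) :
    Function.Bijective (fun p : ℕ × Finset (Fin r) => p.1 * 2 ^ r + dig p.2) := by
  have h2 : 0 < 2 ^ r := by positivity
  constructor
  · rintro ⟨k, ε⟩ ⟨k', ε'⟩ h
    have h' : k * 2 ^ r + dig ε = k' * 2 ^ r + dig ε' := h
    have h3 := congrArg (· % 2 ^ r) h'
    simp only [Nat.mul_add_mod_self_right, Nat.mod_eq_of_lt (dig_lt _)] at h3
    have h4 := dig_inj h3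
    subst h4
    have h5 : k * 2 ^ r = k' * 2 ^ r := by omega
    rw [Nat.eq_of_mul_eq_mul_right h2 h5]
  · intro N
    obtain ⟨ε, hε⟩ := dig_surj (Nat.mod_lt N h2)
    refine ⟨(N / 2 ^ r, ε), ?_⟩
    show N / 2 ^ r * 2 ^ r + dig ε = N
    rw [hε]
    exact Nat.div_add_mod' N (2 ^ r)

/-- PROOF SKETCH. For `j ≥ 1`, `Xs K j` is monic of degree `2 ^ (j - 1)` (as a polynomial in `y` over
`K[x]`). So `P (k, ε) = Xs (r+1) ^ k * ∏ j ∈ ε, Xs (j+1)` is monic of degree `k 2 ^ r + ∑ j ∈ ε, 2 ^ j`,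
and `(k, ε) ↦ k 2 ^ r + ∑ j ∈ ε, 2 ^ j` is a bijection onto `ℕ` (binary digits). So the `P (k, ε)` form a
basis of `K[x][y]` over `K[x]` (`Polynomial.Sequence`), and the products with `x ^ a` a basis over `K`
(`Module.Basis.smulTower` or directly). -/
theorem exists_basis (K : Type) [Field K] (r : ℕ) :
    ∃ b : Basis (ℕ × ℕ × Finset (Fin r)) K K[X][X], ∀ p, b p = mon K r p := by
  let P : ℕ × Finset (Fin r) → K[X][X] := fun p => Xs K (r + 1) ^ p.1 * ∏ j ∈ p.2, Xs K (j + 1)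
  have hP : ∀ p, (P p).Monic ∧ (P p).natDegree = p.1 * 2 ^ r + dig p.2 := by
    intro p
    have h1 := (Xs_monic K r).1.pow p.1
    have h2 : (∏ j ∈ p.2, Xs K ((j : ℕ) + 1)).Monic :=
      monic_prod_of_monic _ _ fun j _ => (Xs_monic K j).1
    refine ⟨h1.mul h2, ?_⟩
    rw [h1.natDegree_mul h2, (Xs_monic K r).1.natDegree_pow, (Xs_monic K r).2,
      natDegree_prod_of_monic _ (fun j : Fin r => Xs K ((j : ℕ) + 1)) fun j _ => (Xs_monic K j).1]
    congr 1
    exact Finset.sum_congr rfl fun j _ => (Xs_monic K j).2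
  let e : ℕ × Finset (Fin r) ≃ ℕ := Equiv.ofBijective _ (num_bij r)
  let S : Polynomial.Sequence K[X] := ⟨fun n => P (e.symm n), fun n => by
    rw [degree_eq_natDegree (hP _).1.ne_zero, (hP _).2]
    have : e (e.symm n) = n := e.apply_symm_apply n
    exact congrArg Nat.cast this⟩
  have hS : ∀ i, IsUnit (S i).leadingCoeff := by
    intro i
    have h1 : (S i).leadingCoeff = 1 := (hP (e.symm i)).1
    rw [h1]
    exact isUnit_one
  let c : Basis (ℕ × Finset (Fin r)) K[X] K[X][X] := (S.basis hS).reindex e.symm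
  refine ⟨(Polynomial.basisMonomials K).smulTower c, fun p => ?_⟩
  have hc : c p.2 = P p.2 := by
    show ((S.basis hS).reindex e.symm) p.2 = P p.2
    rw [Basis.reindex_apply, Polynomial.Sequence.basis_eq_self]
    show P (e.symm (e.symm.symm p.2)) = P p.2
    rw [Equiv.symm_symm, Equiv.symm_apply_apply]
  rw [Basis.smulTower_apply, hc, Polynomial.coe_basisMonomials]
  show (monomial p.1 (1 : K)) • (Xs K (r + 1) ^ p.2.1 * ∏ j ∈ p.2.2, Xs K (j + 1)) =
    C X ^ p.1 * Xs K (r + 1) ^ p.2.1 * ∏ j ∈ p.2.2, Xs K (j + 1)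
  rw [smul_eq_C_mul, ← C_pow, mul_assoc, monomial_one_right_eq_X_pow]

end Pool.Agent.H248.TW
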