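import Mathlib

/-!
# A bound for the number of common zeros by a dimension count
-/

set_option autoImplicit false

namespace Pool.Agent.H248.TW

open Module

namespace T4N

theorem exists_g {K R : Type*} [Field K] [CommRing R] [Algebra K R] (χ χ' : R →ₐ[K] K)
    (h : χ' ≠ χ) : ∃ g : R, χ g = 1 ∧ χ' g = 0 := by
  obtain ⟨f, hf⟩ : ∃ f, χ' f ≠ χ f := by
    by_contra hcon
    push Not at hcon
    exact h (AlgHom.ext hcon)
  have h0 : χ f - χ' f ≠ 0 := sub_ne_zero.2 (Ne.symm hf)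
  refine ⟨(χ f - χ' f)⁻¹ • (f - algebraMap K R (χ' f)), ?_, ?_⟩
  · rw [map_smul, map_sub, AlgHom.commutes, smul_eq_mul]
    exact inv_mul_cancel₀ h0
  · rw [map_smul, map_sub, AlgHom.commutes, smul_eq_mul]
    have : χ' f - (algebraMap K K) (χ' f) = 0 := sub_self _
    rw [this, mul_zero]

theorem exists_e {K R : Type*} [Field K] [CommRing R] [Algebra K R] (Z : Finset (R →ₐ[K] K))
    (χ : R →ₐ[K] K) : ∃ e : R, χ e = 1 ∧ ∀ χ' ∈ Z, χ' ≠ χ → χ' e = 0 := by
  classical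
  have h : ∀ χ' : R →ₐ[K] K, ∃ g : R, χ' ≠ χ → (χ g = 1 ∧ χ' g = 0) := by
    intro χ'
    by_cases hc : χ' = χ
    · exact ⟨0, fun h => absurd hc h⟩
    · obtain ⟨g, hg⟩ := exists_g χ χ' hc
      exact ⟨g, fun _ => hg⟩
  choose g hg using h
  refine ⟨∏ χ' ∈ Z.erase χ, g χ', ?_, ?_⟩
  · rw [map_prod]
    exact Finset.prod_eq_one fun χ' h' => (hg χ' (Finset.ne_of_mem_erase h')).1
  · intro χ' h1 h2
    rw [map_prod]
    exact Finset.prod_eq_zero (Finset.mem_erase.2 ⟨h2, h1⟩) (hg χ' h2).2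

theorem finrank_map_mul {K R : Type*} [Field K] [CommRing R] [IsDomain R] [Algebra K R]
    (S : Submodule K R) (u : R) (hu : u ≠ 0) :
    finrank K (S.map (LinearMap.mulLeft K u)) = finrank K S := by
  have hinj : Function.Injective (LinearMap.mulLeft K u) := by
    intro x y hxy
    exact mul_left_cancel₀ hu hxy
  exact (LinearEquiv.finrank_eq (Submodule.equivMapOfInjective _ hinj S)).symm

end T4N

open T4N in
/-- PROOF SKETCH. For `n` large `F n → (Z → K)`, `f ↦ (χ f)` is surjective (distinct algebra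
homomorphisms to `K`: for `χ ≠ χ'` there is `f` with `χ f = 1`, `χ' f = 0`; products give elements `e_χ` with
`χ' e_χ = δ`; take `n` with all `e_χ ∈ F n`, `hmono`). Let `a = ν u`, `b = ν v`, `n ≥ n₀ + a + b`. The kernel
contains `A + B`, `A = u F (n-a)`, `B = v F (n-b)` (both in `F n` by `hν1`, `hν2`). So
`|Z| ≤ dim F n - dim (A + B)` and `dim (A + B) = dim F (n-a) + dim F (n-b) - dim (A ∩ B)`
(multiplication by `u` is injective). If `w = u α = v β ∈ A ∩ B` then `u ∣ β` by `hco`, `β = u γ`,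
`w = u v γ ∈ F n`, so `γ ∈ F (n-a-b)` by `hν1`, `hν2`: `dim (A ∩ B) ≤ dim F (n-a-b)`. Use `hT`. -/
theorem bezout {K R : Type*} [Field K] [CommRing R] [IsDomain R] [Algebra K R]
    (F : ℕ → Submodule K R) (hF : ∀ n, FiniteDimensional K (F n)) (hmono : Monotone F)
    (hex : ∀ f, ∃ n, f ∈ F n) (ν : R → ℕ)
    (hν1 : ∀ f g, f ≠ 0 → g ≠ 0 → ν (f * g) = ν f + ν g)
    (hν2 : ∀ n f, f ∈ F n ↔ f = 0 ∨ ν f ≤ n) (u v : R) (hu : u ≠ 0) (hv : v ≠ 0)
    (hco : ∀ w, u ∣ v * w → u ∣ w) (T : ℕ)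
    (hT : ∀ n, ν u + ν v ≤ n → finrank K (F n) + finrank K (F (n - ν u - ν v)) ≤
      finrank K (F (n - ν u)) + finrank K (F (n - ν v)) + T)
    (Z : Finset (R →ₐ[K] K)) (hZ : ∀ χ ∈ Z, χ u = 0 ∧ χ v = 0) : Z.card ≤ T := by
  classical
  choose e he1 he2 using fun χ : R →ₐ[K] K => exists_e Z χ
  choose N hN using hex
  obtain ⟨n, hn⟩ : ∃ n : ℕ, n = (∑ χ ∈ Z, N (e χ)) + ν u + ν v := ⟨_, rfl⟩
  have hen : ∀ χ ∈ Z, e χ ∈ F n := by
    intro χ hχ
    refine hmono ?_ (hN (e χ))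
    have := Finset.single_le_sum (f := fun χ => N (e χ)) (fun _ _ => Nat.zero_le _) hχ
    omega
  have hn1 : ν u + ν v ≤ n := by omega
  have hfn := hF n
  have hfa := hF (n - ν u)
  have hfb := hF (n - ν v)
  have hfab := hF (n - ν u - ν v)
  -- the evaluation
  let Φ : F n →ₗ[K] (Z → K) :=
    (LinearMap.pi fun χ : Z => (χ.1).toLinearMap).comp (F n).subtype
  have hΦ : ∀ (f : F n) (χ : Z), Φ f χ = χ.1 (f : R) := fun f χ => rfl
  have hsurj : Function.Surjective Φ := by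
    intro c
    refine ⟨∑ χ : Z, c χ • ⟨e χ.1, hen χ.1 χ.2⟩, ?_⟩
    funext χ'
    rw [hΦ, Submodule.coe_sum, map_sum, Finset.sum_eq_single χ']
    · rw [Submodule.coe_smul, map_smul, he1, smul_eq_mul, mul_one]
    · intro χ _ hne
      rw [Submodule.coe_smul, map_smul]
      have : χ'.1 (e χ.1) = 0 := he2 χ.1 χ'.1 χ'.2 fun h => hne (Subtype.ext h.symm)
      simp only [this, smul_zero]
    · intro h
      exact absurd (Finset.mem_univ _) h
  have hrank := LinearMap.finrank_range_add_finrank_ker Φ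
  rw [LinearMap.range_eq_top.2 hsurj, finrank_top, Module.finrank_fintype_fun_eq_card,
    Fintype.card_coe] at hrank
  -- the two subspaces
  set A : Submodule K R := (F (n - ν u)).map (LinearMap.mulLeft K u) with hA
  set B : Submodule K R := (F (n - ν v)).map (LinearMap.mulLeft K v) with hB
  have hAF : A ≤ F n := by
    rintro _ ⟨α, hα, rfl⟩
    rw [LinearMap.mulLeft_apply]
    by_cases h0 : α = 0
    · rw [h0, mul_zero]
      exact zero_mem _
    · have h1 := ((hν2 _ _).1 hα).resolve_left h0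
      refine (hν2 _ _).2 (Or.inr ?_)
      rw [hν1 _ _ hu h0]
      omega
  have hBF : B ≤ F n := by
    rintro _ ⟨α, hα, rfl⟩
    rw [LinearMap.mulLeft_apply]
    by_cases h0 : α = 0
    · rw [h0, mul_zero]
      exact zero_mem _
    · have h1 := ((hν2 _ _).1 hα).resolve_left h0
      refine (hν2 _ _).2 (Or.inr ?_)
      rw [hν1 _ _ hv h0]
      omega
  have hABF : A ⊔ B ≤ F n := sup_le hAF hBF
  have hker : (A ⊔ B).comap (F n).subtype ≤ LinearMap.ker Φ := by
    intro f hf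
    rw [Submodule.mem_comap] at hf
    obtain ⟨x, hx, y, hy, hxy⟩ := Submodule.mem_sup.1 hf
    rw [LinearMap.mem_ker]
    funext χ
    rw [hΦ]
    obtain ⟨α, -, rfl⟩ := hx
    obtain ⟨β, -, rfl⟩ := hy
    have h1 : (F n).subtype f = (f : R) := rfl
    rw [← h1, ← hxy, map_add, LinearMap.mulLeft_apply, LinearMap.mulLeft_apply, map_mul, map_mul,
      (hZ χ.1 χ.2).1, (hZ χ.1 χ.2).2, zero_mul, zero_mul, add_zero]
    rfl
  have h2 : finrank K (A ⊔ B : Submodule K R) ≤ finrank K (LinearMap.ker Φ) := by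
    rw [← LinearEquiv.finrank_eq (Submodule.comapSubtypeEquivOfLe hABF)]
    exact Submodule.finrank_mono hker
  have h3 := Submodule.finrank_sup_add_finrank_inf_eq A B
  have h4 : finrank K (A ⊓ B : Submodule K R) ≤ finrank K (F (n - ν u - ν v)) := by
    rw [← finrank_map_mul (F (n - ν u - ν v)) (u * v) (mul_ne_zero hu hv)]
    refine Submodule.finrank_mono ?_
    rintro w ⟨⟨α, hα, hw1⟩, ⟨β, hβ, hw2⟩⟩
    rw [LinearMap.mulLeft_apply] at hw1 hw2
    by_cases h0 : β = 0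
    · rw [← hw2, h0, mul_zero]
      exact zero_mem _
    · obtain ⟨γ, hγ⟩ := hco β ⟨α, by rw [hw1, hw2]⟩
      have hγ0 : γ ≠ 0 := by
        rintro rfl
        exact h0 (by rw [hγ, mul_zero])
      have h1 := ((hν2 _ _).1 hβ).resolve_left h0
      rw [hγ, hν1 _ _ hu hγ0] at h1
      refine ⟨γ, (hν2 _ _).2 (Or.inr (by omega)), ?_⟩
      rw [LinearMap.mulLeft_apply, ← hw2, hγ]
      ring
  have h5 : finrank K A = finrank K (F (n - ν u)) := finrank_map_mul _ _ hu
  have h6 : finrank K B = finrank K (F (n - ν v)) := finrank_map_mul _ _ hv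
  have h7 := hT n hn1
  rw [h5, h6] at h3
  omega

end Pool.Agent.H248.TW
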