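import Pool.Agent.H248.TW.Defs

/-!
# Counting monomials
-/

set_option autoImplicit false

namespace Pool.Agent.H248.TW

theorem wtS_inj0 (r : ℕ) : Function.Injective (fun j : Fin r => r - 1 - (j : ℕ)) := by
  intro a b h
  have ha := a.isLt
  have hb := b.isLt
  simp only at h
  exact Fin.ext (by omega)

theorem wtS_eq (r : ℕ) (e : Finset (Fin r)) :
    ∑ j ∈ e, 2 ^ (r - 1 - (j : ℕ)) = ∑ m ∈ e.image (fun j : Fin r => r - 1 - (j : ℕ)), 2 ^ m := by
  rw [Finset.sum_image (fun a _ b _ h => wtS_inj0 r h)]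

theorem wtS_lt (r : ℕ) (e : Finset (Fin r)) : ∑ j ∈ e, 2 ^ (r - 1 - (j : ℕ)) < 2 ^ r := by
  rw [wtS_eq]
  apply Nat.geomSum_lt (le_refl 2)
  intro k hk
  obtain ⟨j, _, rfl⟩ := Finset.mem_image.1 hk
  have := j.isLt
  omega

theorem wtS_inj (r : ℕ) (e e' : Finset (Fin r))
    (h : ∑ j ∈ e, 2 ^ (r - 1 - (j : ℕ)) = ∑ j ∈ e', 2 ^ (r - 1 - (j : ℕ))) : e = e' := by
  rw [wtS_eq, wtS_eq] at h
  have h1 := congrArg (fun x => (Nat.bitIndices x).toFinset) h
  simp only [Finset.toFinset_bitIndices_sum_two_pow] at h1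
  exact Finset.image_injective (wtS_inj0 r) h1

theorem wtS_surj (r c : ℕ) (hc : c < 2 ^ r) :
    ∃ e : Finset (Fin r), ∑ j ∈ e, 2 ^ (r - 1 - (j : ℕ)) = c := by
  have hb : Function.Bijective (fun e : Finset (Fin r) =>
      (⟨∑ j ∈ e, 2 ^ (r - 1 - (j : ℕ)), wtS_lt r e⟩ : Fin (2 ^ r))) := by
    rw [Fintype.bijective_iff_injective_and_card]
    refine ⟨fun a b h => wtS_inj r a b (Fin.mk.inj_iff.1 h), ?_⟩
    rw [Fintype.card_finset, Fintype.card_fin, Fintype.card_fin]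
  obtain ⟨e, he⟩ := hb.2 ⟨c, hc⟩
  exact ⟨e, congrArg Fin.val he⟩

theorem wt_div (r : ℕ) (p : ℕ × ℕ × Finset (Fin r)) :
    wt r p / 2 ^ r = p.1 + p.2.1 + p.2.2.card := by
  unfold wt
  rw [Nat.mul_add_div (by positivity), Nat.div_eq_of_lt (wtS_lt r _), add_zero]

theorem wt_mod (r : ℕ) (p : ℕ × ℕ × Finset (Fin r)) :
    wt r p % 2 ^ r = ∑ j ∈ p.2.2, 2 ^ (r - 1 - (j : ℕ)) := by
  unfold wt
  rw [Nat.mul_add_mod, Nat.mod_eq_of_lt (wtS_lt r _)]

/-- the weight determines the index up to the second component. SKETCH: `∑ j ∈ ε, 2^(r-1-j) < 2^r`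
(distinct powers of two) determines `ε` (binary digits) and is `wt % 2^r`; then `wt / 2^r` gives `p.1`. -/
theorem wt_inj (r : ℕ) (p p' : ℕ × ℕ × Finset (Fin r)) (h : wt r p = wt r p')
    (h2 : p.2.1 = p'.2.1) : p = p' := by
  have h3 : p.2.2 = p'.2.2 := by
    apply wtS_inj
    rw [← wt_mod, ← wt_mod, h]
  have h4 : p.1 + p.2.1 + p.2.2.card = p'.1 + p'.2.1 + p'.2.2.card := by
    rw [← wt_div, ← wt_div, h]
  have h5 : p.1 = p'.1 := by
    rw [h2, h3] at h4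
    omega
  exact Prod.ext h5 (Prod.ext h2 h3)

theorem wt_le (r : ℕ) (p : ℕ × ℕ × Finset (Fin r)) : p.1 + p.2.1 + p.2.2.card ≤ wt r p := by
  rw [← wt_div]
  exact Nat.div_le_self _ _

theorem wt_finite (r n : ℕ) : {p : ℕ × ℕ × Finset (Fin r) | wt r p ≤ n}.Finite := by
  refine ((Set.finite_Iic n).prod ((Set.finite_Iic n).prod
    (Set.finite_univ : (Set.univ : Set (Finset (Fin r))).Finite))).subset ?_
  intro p hp
  have h1 := wt_le r p
  have h2 : wt r p ≤ n := hp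
  refine ⟨?_, ?_, Set.mem_univ _⟩
  · show p.1 ≤ n
    omega
  · show p.2.1 ≤ n
    omega

theorem wtH_fin (r w : ℕ) : {p : ℕ × ℕ × Finset (Fin r) | wt r p = w}.Finite :=
  (wt_finite r w).subset fun _ hp => le_of_eq hp

theorem wtH_le (r w : ℕ) :
    {p : ℕ × ℕ × Finset (Fin r) | wt r p = w}.ncard ≤ w / 2 ^ r + 1 := by
  have h := Set.ncard_le_ncard_of_injOn (s := {p : ℕ × ℕ × Finset (Fin r) | wt r p = w})
    (t := ((Finset.range (w / 2 ^ r + 1) : Finset ℕ) : Set ℕ)) (fun p => p.2.1)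
    (fun p hp => by
      have h1 := wt_div r p
      have h2 : wt r p = w := hp
      rw [h2] at h1
      rw [Finset.mem_coe, Finset.mem_range]
      show p.2.1 < w / 2 ^ r + 1
      omega)
    (fun p hp p' hp' h => wt_inj r p p' (Eq.trans hp (Eq.symm hp')) h) (Finset.finite_toSet _)
  rw [Set.ncard_coe_finset, Finset.card_range] at h
  exact h

theorem wtH_ge (r w : ℕ) :
    w / 2 ^ r + 1 ≤ {p : ℕ × ℕ × Finset (Fin r) | wt r p = w}.ncard + r := by
  obtain ⟨e, he⟩ := wtS_surj r (w % 2 ^ r) (Nat.mod_lt _ (by positivity))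
  have her : e.card ≤ r := by
    have := Finset.card_le_univ e
    rwa [Fintype.card_fin] at this
  have h := Set.ncard_le_ncard_of_injOn
    (s := ((Finset.range (w / 2 ^ r + 1 - e.card) : Finset ℕ) : Set ℕ))
    (t := {p : ℕ × ℕ × Finset (Fin r) | wt r p = w})
    (fun j => (w / 2 ^ r - e.card - j, j, e))
    (fun j hj => by
      rw [Finset.mem_coe, Finset.mem_range] at hj
      show 2 ^ r * ((w / 2 ^ r - e.card - j) + j + e.card) +
        ∑ j ∈ e, 2 ^ (r - 1 - (j : ℕ)) = w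
      rw [he]
      have h1 : (w / 2 ^ r - e.card - j) + j + e.card = w / 2 ^ r := by omega
      rw [h1]
      exact Nat.div_add_mod w (2 ^ r))
    (fun j _ j' _ h => (Prod.ext_iff.1 (Prod.ext_iff.1 h).2).1) (wtH_fin r w)
  rw [Set.ncard_coe_finset, Finset.card_range] at h
  omega

theorem wtH_cmp (r κ w b : ℕ) (hb : b < 2 ^ r * (κ + 1)) (hbw : b ≤ w) :
    {p : ℕ × ℕ × Finset (Fin r) | wt r p = w}.ncard ≤
      {p : ℕ × ℕ × Finset (Fin r) | wt r p = w - b}.ncard + (κ + r + 1) := by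
  have h1 := wtH_le r w
  have h2 := wtH_ge r (w - b)
  have h3 : w / 2 ^ r ≤ (w - b) / 2 ^ r + (κ + 1) := by
    have h4 : w ≤ (w - b) + 2 ^ r * (κ + 1) := by omega
    calc w / 2 ^ r ≤ ((w - b) + 2 ^ r * (κ + 1)) / 2 ^ r := Nat.div_le_div_right h4
      _ = (w - b) / 2 ^ r + (κ + 1) := Nat.add_mul_div_left _ _ (by positivity)
  omega

theorem wtA_succ (r m : ℕ) :
    {p : ℕ × ℕ × Finset (Fin r) | wt r p ≤ m + 1}.ncard =
      {p : ℕ × ℕ × Finset (Fin r) | wt r p ≤ m}.ncard +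
        {p : ℕ × ℕ × Finset (Fin r) | wt r p = m + 1}.ncard := by
  rw [← Set.ncard_union_eq ?_ (wt_finite r m) (wtH_fin r (m + 1))]
  · congr 1
    ext p
    simp only [Set.mem_setOf_eq, Set.mem_union]
    omega
  · rw [Set.disjoint_left]
    intro p h1 h2
    have h3 : wt r p ≤ m := h1
    have h4 : wt r p = m + 1 := h2
    omega

theorem count_ind (r κ n b : ℕ) (hb : b < 2 ^ r * (κ + 1)) : ∀ a : ℕ, a + b ≤ n →
    {p : ℕ × ℕ × Finset (Fin r) | wt r p ≤ n}.ncard +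
      {p : ℕ × ℕ × Finset (Fin r) | wt r p ≤ n - a - b}.ncard ≤
    {p : ℕ × ℕ × Finset (Fin r) | wt r p ≤ n - a}.ncard +
      {p : ℕ × ℕ × Finset (Fin r) | wt r p ≤ n - b}.ncard + a * (κ + r + 1) := by
  intro a
  induction a with
  | zero =>
    intro _
    rw [Nat.sub_zero, Nat.zero_mul, Nat.add_zero]
  | succ a ih =>
    intro hab
    have h1 := ih (by omega)
    have h2 := wtA_succ r (n - (a + 1))
    have h3 := wtA_succ r (n - (a + 1) - b)
    have e1 : n - (a + 1) + 1 = n - a := by omega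
    have e2 : n - (a + 1) - b + 1 = n - a - b := by omega
    rw [e1] at h2
    rw [e2] at h3
    have h4 := wtH_cmp r κ (n - a) b hb (by omega)
    have e3 : (a + 1) * (κ + r + 1) = a * (κ + r + 1) + (κ + r + 1) := by ring
    rw [e3]
    omega

/-- PROOF SKETCH. `h j` = number of indices of weight `j`; `ε` is determined by `j % 2^r`, and
`p.1 + p.2.1 = j / 2^r - |ε|`, so `j / 2^r + 1 - r ≤ h j ≤ j / 2^r + 1` (truncated subtraction). So
`∑_{i<a} (h (n - i) - h (n - b - i)) ≤ a (κ + 1 + r)`. -/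
theorem count_two (r κ n a b : ℕ) (hab : a + b ≤ n) (ha : a < 2 ^ r * (κ + 1))
    (hb : b < 2 ^ r * (κ + 1)) :
    {p : ℕ × ℕ × Finset (Fin r) | wt r p ≤ n}.ncard +
      {p : ℕ × ℕ × Finset (Fin r) | wt r p ≤ n - a - b}.ncard ≤
    {p : ℕ × ℕ × Finset (Fin r) | wt r p ≤ n - a}.ncard +
      {p : ℕ × ℕ × Finset (Fin r) | wt r p ≤ n - b}.ncard + 2 ^ r * (κ + 1) * (κ + r + 1) := by
  have h1 := count_ind r κ n b hb a hab
  have h2 : a * (κ + r + 1) ≤ 2 ^ r * (κ + 1) * (κ + r + 1) := Nat.mul_le_mul_right _ ha.le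
  omega

end Pool.Agent.H248.TW
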