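import Pool.Agent.H248.TW.Defs

/-!
# Counting monomials, the top layer
-/

set_option autoImplicit false

namespace Pool.Agent.H248.TW

theorem low_lt (r : ℕ) (e : Finset (Fin r)) : ∑ j ∈ e, 2 ^ (r - 1 - (j : ℕ)) < 2 ^ r := by
  have h1 : ∑ j ∈ e, 2 ^ (r - 1 - (j : ℕ)) ≤ ∑ j : Fin r, 2 ^ (r - 1 - (j : ℕ)) :=
    Finset.sum_le_sum_of_subset (Finset.subset_univ e)
  have h2 : ∑ j : Fin r, 2 ^ (r - 1 - (j : ℕ)) = ∑ j ∈ Finset.range r, 2 ^ (r - 1 - j) :=
    Fin.sum_univ_eq_sum_range (fun j => 2 ^ (r - 1 - j)) r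
  rw [h2, Finset.sum_range_reflect (fun j => 2 ^ j) r] at h1
  have h3 := Nat.geomSum_lt (m := 2) le_rfl (n := r) (s := Finset.range r)
    (fun k hk => Finset.mem_range.1 hk)
  omega

theorem wt_lt_iff (r k : ℕ) (p : ℕ × ℕ × Finset (Fin r)) :
    wt r p < 2 ^ r * k ↔ p.1 + p.2.1 + p.2.2.card < k := by
  have h1 := low_lt r p.2.2
  unfold wt
  constructor
  · intro h
    by_contra hcon
    have h2 : 2 ^ r * k ≤ 2 ^ r * (p.1 + p.2.1 + p.2.2.card) :=
      Nat.mul_le_mul_left _ (not_lt.1 hcon)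
    omega
  · intro h
    have h2 : 2 ^ r * (p.1 + p.2.1 + p.2.2.card + 1) ≤ 2 ^ r * k := Nat.mul_le_mul_left _ h
    rw [mul_add, mul_one] at h2
    omega

theorem sum_co (r : ℕ) (hr : 1 ≤ r) :
    ∑ e : Finset (Fin r), (r - e.card + 1) = 2 ^ (r - 1) * (r + 2) := by
  have h1 : ∑ e : Finset (Fin r), (r - e.card) = ∑ e : Finset (Fin r), e.card := by
    refine Finset.sum_bij' (fun e _ => eᶜ) (fun e _ => eᶜ) (fun _ _ => Finset.mem_univ _)
      (fun _ _ => Finset.mem_univ _) (fun e _ => compl_compl e) (fun e _ => compl_compl e)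
      (fun e _ => ?_)
    rw [Finset.card_compl, Fintype.card_fin]
  have h2 : ∑ e : Finset (Fin r), (r - e.card) + ∑ e : Finset (Fin r), e.card = 2 ^ r * r := by
    rw [← Finset.sum_add_distrib]
    have h3 : ∀ e : Finset (Fin r), (r - e.card) + e.card = r := fun e => by
      have := Finset.card_le_univ e
      rw [Fintype.card_fin] at this
      omega
    rw [Finset.sum_congr rfl fun e _ => h3 e, Finset.sum_const, Finset.card_univ,
      Fintype.card_finset, Fintype.card_fin, smul_eq_mul]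
  have h4 : 2 ^ r = 2 * 2 ^ (r - 1) := by
    obtain ⟨m, rfl⟩ : ∃ m, r = m + 1 := ⟨r - 1, by omega⟩
    rw [Nat.add_sub_cancel, pow_succ]
    ring
  rw [Finset.sum_add_distrib, Finset.sum_const, Finset.card_univ, Fintype.card_finset,
    Fintype.card_fin, smul_eq_mul, mul_one]
  rw [← h1, h4] at h2
  rw [h4]
  have h5 : ∑ e : Finset (Fin r), (r - e.card) = 2 ^ (r - 1) * r := by
    have h6 : 2 * 2 ^ (r - 1) * r = 2 * (2 ^ (r - 1) * r) := by ring
    omega
  rw [h5]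
  ring

theorem eq_count (r : ℕ) (hr : 1 ≤ r) :
    {p : ℕ × ℕ × Finset (Fin r) | p.1 + p.2.1 + p.2.2.card = r}.Finite ∧
    {p : ℕ × ℕ × Finset (Fin r) | p.1 + p.2.1 + p.2.2.card = r}.ncard =
      2 ^ (r - 1) * (r + 2) := by
  classical
  have h1 : {p : ℕ × ℕ × Finset (Fin r) | p.1 + p.2.1 + p.2.2.card = r} =
      (fun x : (_ : Finset (Fin r)) × (ℕ × ℕ) => (x.2.1, x.2.2, x.1)) ''
        (((Finset.univ : Finset (Finset (Fin r))).sigma
          (fun e => Finset.HasAntidiagonal.antidiagonal (r - e.card)) :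
            Finset ((_ : Finset (Fin r)) × (ℕ × ℕ))) : Set ((_ : Finset (Fin r)) × (ℕ × ℕ))) := by
    ext ⟨a, b, e⟩
    have he := Finset.card_le_univ e
    rw [Fintype.card_fin] at he
    constructor
    · intro h
      simp only [Set.mem_ofPred_eq] at h
      refine ⟨⟨e, (a, b)⟩, ?_, rfl⟩
      rw [Finset.mem_coe, Finset.mem_sigma, Finset.HasAntidiagonal.mem_antidiagonal]
      refine ⟨Finset.mem_univ _, ?_⟩
      simp only
      omega
    · rintro ⟨⟨e', a', b'⟩, h, h2⟩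
      rw [Finset.mem_coe, Finset.mem_sigma, Finset.HasAntidiagonal.mem_antidiagonal] at h
      simp only [Prod.mk.injEq] at h2
      obtain ⟨rfl, rfl, rfl⟩ := h2
      have := h.2
      simp only [Set.mem_ofPred_eq] at this ⊢
      omega
  have hinj : Function.Injective
      (fun x : (_ : Finset (Fin r)) × (ℕ × ℕ) => (x.2.1, x.2.2, x.1)) := by
    rintro ⟨e, a, b⟩ ⟨e', a', b'⟩ h
    simp only [Prod.mk.injEq] at h
    obtain ⟨rfl, rfl, rfl⟩ := h
    rfl
  constructor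
  · rw [h1]
    exact (Finset.finite_toSet _).image _
  · rw [h1, Set.ncard_image_of_injective _ hinj, Set.ncard_coe_finset, Finset.card_sigma,
      ← sum_co r hr]
    exact Finset.sum_congr rfl fun e _ => Finset.Nat.card_antidiagonal _

/-- PROOF SKETCH. `wt p ≤ 2^r (κ+1) - 1` iff `p.1 + p.2.1 + |ε| ≤ κ`. The number of `p` with
`p.1 + p.2.1 + |ε| = r` is `∑_ε (r - |ε| + 1) = 2^r (r + 1) - r 2^(r-1) = 2^(r-1) (r + 2)`. -/
theorem count_one (r : ℕ) (hr : 1 ≤ r) :
    {p : ℕ × ℕ × Finset (Fin r) | wt r p ≤ 2 ^ r * (r + 1) - 1}.ncard =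
    {p : ℕ × ℕ × Finset (Fin r) | wt r p ≤ 2 ^ r * r - 1}.ncard + 2 ^ (r - 1) * (r + 2) := by
  have h2 : 0 < 2 ^ r := by positivity
  have e1 : {p : ℕ × ℕ × Finset (Fin r) | wt r p ≤ 2 ^ r * (r + 1) - 1} =
      {p : ℕ × ℕ × Finset (Fin r) | p.1 + p.2.1 + p.2.2.card < r} ∪
      {p : ℕ × ℕ × Finset (Fin r) | p.1 + p.2.1 + p.2.2.card = r} := by
    ext p
    have h3 := wt_lt_iff r (r + 1) p
    have h4 : 0 < 2 ^ r * (r + 1) := by positivity
    simp only [Set.mem_ofPred_eq, Set.mem_union]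
    omega
  have e2 : {p : ℕ × ℕ × Finset (Fin r) | wt r p ≤ 2 ^ r * r - 1} =
      {p : ℕ × ℕ × Finset (Fin r) | p.1 + p.2.1 + p.2.2.card < r} := by
    ext p
    have h3 := wt_lt_iff r r p
    have h4 : 0 < 2 ^ r * r := Nat.mul_pos h2 hr
    simp only [Set.mem_ofPred_eq]
    omega
  have hfin : {p : ℕ × ℕ × Finset (Fin r) | p.1 + p.2.1 + p.2.2.card < r}.Finite := by
    refine ((Set.finite_Iio r).prod ((Set.finite_Iio r).prod
      (Set.finite_univ (α := Finset (Fin r))))).subset ?_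
    intro p hp
    simp only [Set.mem_ofPred_eq] at hp
    refine ⟨?_, ?_, trivial⟩
    · show p.1 < r
      omega
    · show p.2.1 < r
      omega
  obtain ⟨hf, hc⟩ := eq_count r hr
  rw [e1, e2, Set.ncard_union_eq ?_ hfin hf, hc]
  rw [Set.disjoint_left]
  intro p h3 h4
  simp only [Set.mem_ofPred_eq] at h3 h4
  omega

end Pool.Agent.H248.TW
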