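import Mathlib

/-!
# Key polynomials with large degree

`K[x][y]` with the polynomials `X_0 = x`, `X_1 = y`, `X_2 = y² - x³`, `X_{j+1} = X_j² - x X_{j-1}`, which
get the degrees `2 ^ r`, `2 ^ r + 2 ^ (r - j)` for `1 ≤ j ≤ r` and `2 ^ r` for `j = r + 1`.
-/

set_option autoImplicit false

namespace Pool.Agent.H248.TW

open Polynomial

/-- the key polynomials `X_0 = x`, `X_1 = y`, `X_2 = y² - x³`, `X_{j+1} = X_j² - x X_{j-1}` -/
noncomputable def Xs (K : Type) [Field K] : ℕ → K[X][X]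
  | 0 => C X
  | 1 => X
  | 2 => X ^ 2 - (C X) ^ 3
  | (n + 3) => Xs K (n + 2) ^ 2 - C X * Xs K (n + 1)

/-- the normal monomials -/
noncomputable def mon (K : Type) [Field K] (r : ℕ) (p : ℕ × ℕ × Finset (Fin r)) : K[X][X] :=
  C X ^ p.1 * Xs K (r + 1) ^ p.2.1 * ∏ j ∈ p.2.2, Xs K (j + 1)

/-- the weight -/
def wt (r : ℕ) (p : ℕ × ℕ × Finset (Fin r)) : ℕ :=
  2 ^ r * (p.1 + p.2.1 + p.2.2.card) + ∑ j ∈ p.2.2, 2 ^ (r - 1 - (j : ℕ))

end Pool.Agent.H248.TW
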