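import Mathlib

/-!
# A greedy family without common factors
-/

set_option autoImplicit false

namespace Pool.Agent.H248.TW

/-- PROOF SKETCH. Induction on `M` (for `M + 1`: a family `S` with `M` elements exists since the hypothesis for
`M` follows from the one for `M + 1`). Call `f ∈ V` forbidden if `f ∈ S` or if for some `f₁ ≠ f₂` in `S` a
prime factor `p` of `f₁ - f₂` divides `f - f₁`. For fixed `f₁, f₂`: `f₁ - f₂ ∈ V`, `f₁ - f₂ ≠ 0`; as each
prime factor `p` has `ν p ≥ N` (`hmin`) and `ν` is additive, the multiset `normalizedFactors (f₁ - f₂)`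
(or `factors`) has at most `κ` elements; for each `p` the map `γ ↦ f₁ + p γ` from `V'` covers the `f ∈ V`
with `p ∣ f - f₁` (`ν γ ≤ N (κ + 1) - 1 - N = N κ - 1`). So there are at most
`M + M ^ 2 * κ * |V'| < (M + 1) ^ 2 * (κ + 1) * |V'| < |V|` forbidden elements. Choose `f ∈ V` not forbidden.
For three distinct elements of the new family the differences have no common prime factor (two of the
three differences generate the third, so the order of the three does not matter), and in a UFD
`g ∣ h * w` with no common prime factor of `g ≠ 0` and `h` gives `g ∣ w`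
(`IsRelPrime.dvd_of_dvd_mul_left`, `WfDvdMonoid.isRelPrime_of_no_irreducible_factors` or similar). -/
theorem greedy {K R : Type*} [Field K] [Finite K] [CommRing R] [IsDomain R]
    [UniqueFactorizationMonoid R] [Algebra K R] (F : ℕ → Submodule K R)
    (hF : ∀ n, Finite (F n)) (ν : R → ℕ)
    (hν1 : ∀ f g, f ≠ 0 → g ≠ 0 → ν (f * g) = ν f + ν g)
    (hν2 : ∀ n f, f ∈ F n ↔ f = 0 ∨ ν f ≤ n) (N κ : ℕ) (hN : 1 ≤ N) (hκ : 1 ≤ κ)
    (hmin : ∀ f, f ≠ 0 → ¬ IsUnit f → N ≤ ν f) (M : ℕ)
    (hM : M ^ 2 * (κ + 1) * Nat.card (F (N * κ - 1)) < Nat.card (F (N * (κ + 1) - 1))) :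
    ∃ S : Finset R, S.card = M ∧ (∀ f ∈ S, f ∈ F (N * (κ + 1) - 1)) ∧
      ∀ f ∈ S, ∀ g ∈ S, ∀ h ∈ S, f ≠ g → f ≠ h → g ≠ h →
        ∀ w, (f - g) ∣ (f - h) * w → (f - g) ∣ w := by
  classical
  have hfin : ∀ n, (F n : Set R).Finite := fun n => by
    have := hF n
    exact Set.toFinite _
  obtain ⟨V, hV⟩ : ∃ V : Finset R, V = (hfin (N * (κ + 1) - 1)).toFinset := ⟨_, rfl⟩
  obtain ⟨V', hV'⟩ : ∃ V : Finset R, V = (hfin (N * κ - 1)).toFinset := ⟨_, rfl⟩
  have hmV : ∀ f, f ∈ V ↔ f ∈ F (N * (κ + 1) - 1) := by
    intro f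
    rw [hV, Set.Finite.mem_toFinset]
    rfl
  have hmV' : ∀ f, f ∈ V' ↔ f ∈ F (N * κ - 1) := by
    intro f
    rw [hV', Set.Finite.mem_toFinset]
    rfl
  have hcV : Nat.card (F (N * (κ + 1) - 1)) = V.card := by
    rw [hV, ← Set.ncard_eq_toFinset_card _ (hfin _)]
    exact Nat.card_coe_set_eq _
  have hcV' : Nat.card (F (N * κ - 1)) = V'.card := by
    rw [hV', ← Set.ncard_eq_toFinset_card _ (hfin _)]
    exact Nat.card_coe_set_eq _
  rw [hcV, hcV'] at hM
  have h0V' : 0 ∈ V' := (hmV' 0).2 (zero_mem _)
  have hV'1 : 1 ≤ V'.card := Finset.card_pos.2 ⟨0, h0V'⟩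
  have hone : ν 1 = 0 := by
    have := hν1 1 1 one_ne_zero one_ne_zero
    rw [mul_one] at this
    omega
  have hprod : ∀ s : Multiset R, (∀ p ∈ s, p ≠ 0 ∧ N ≤ ν p) →
      s.prod ≠ 0 ∧ N * Multiset.card s ≤ ν s.prod := by
    intro s
    induction s using Multiset.induction_on with
    | empty =>
      intro _
      simp
    | cons p s ih =>
      intro h
      obtain ⟨h1, h2⟩ := ih fun q hq => h q (Multiset.mem_cons_of_mem hq)
      obtain ⟨h3, h4⟩ := h p (Multiset.mem_cons_self p s)
      rw [Multiset.prod_cons, Multiset.card_cons]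
      refine ⟨mul_ne_zero h3 h1, ?_⟩
      rw [hν1 p _ h3 h1]
      nlinarith
  have hfac : ∀ a, a ∈ V → a ≠ 0 →
      Multiset.card (UniqueFactorizationMonoid.factors a) ≤ κ := by
    intro a ha ha0
    have h1 := hprod (UniqueFactorizationMonoid.factors a) fun p hp => by
      have hir := UniqueFactorizationMonoid.irreducible_of_factor p hp
      exact ⟨hir.ne_zero, hmin p hir.ne_zero hir.not_isUnit⟩
    obtain ⟨u, hu⟩ := UniqueFactorizationMonoid.factors_prod ha0
    have h2 : ν a = ν (UniqueFactorizationMonoid.factors a).prod + ν (u : R) := by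
      rw [← hν1 _ _ h1.1 u.ne_zero, hu]
    have h3 : ν a ≤ N * (κ + 1) - 1 := by
      rcases (hν2 _ a).1 ((hmV a).1 ha) with h | h
      · exact absurd h ha0
      · exact h
    have h4 : N * Multiset.card (UniqueFactorizationMonoid.factors a) < N * (κ + 1) := by
      have : 1 ≤ N * (κ + 1) := Nat.one_le_iff_ne_zero.2 (by positivity)
      omega
    have h5 := Nat.lt_of_mul_lt_mul_left h4
    omega
  have key : ∀ m, m ≤ M → ∃ S : Finset R, S.card = m ∧ (∀ f ∈ S, f ∈ V) ∧
      ∀ f ∈ S, ∀ g ∈ S, ∀ h ∈ S, f ≠ g → f ≠ h → g ≠ h → IsRelPrime (f - g) (f - h) := by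
    intro m
    induction m with
    | zero => exact fun _ => ⟨∅, rfl, by simp, by simp⟩
    | succ m ih =>
      intro hm
      obtain ⟨S, hS1, hS2, hS3⟩ := ih (by omega)
      let B : Finset R := S ∪ (S ×ˢ S).biUnion fun q =>
        if q.1 = q.2 then ∅ else
          (UniqueFactorizationMonoid.factors (q.1 - q.2)).toFinset.biUnion fun p =>
            V'.image fun γ => q.1 + p * γ
      have hB : B.card ≤ m + m ^ 2 * (κ * V'.card) := by
        refine (Finset.card_union_le _ _).trans ?_
        rw [hS1]
        refine Nat.add_le_add_left ?_ _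
        have h1 : ((S ×ˢ S).biUnion fun q =>
            if q.1 = q.2 then ∅ else
              (UniqueFactorizationMonoid.factors (q.1 - q.2)).toFinset.biUnion fun p =>
                V'.image fun γ => q.1 + p * γ).card ≤ (S ×ˢ S).card * (κ * V'.card) := by
          refine Finset.card_biUnion_le_card_mul _ _ _ fun q hq => ?_
          split_ifs with h
          · simp
          · refine (Finset.card_biUnion_le_card_mul _ _ V'.card
              fun p _ => Finset.card_image_le).trans ?_
            refine Nat.mul_le_mul_right _ ((Multiset.toFinset_card_le _).trans ?_)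
            rw [Finset.mem_product] at hq
            refine hfac _ ?_ (sub_ne_zero.2 h)
            rw [hmV]
            exact sub_mem ((hmV _).1 (hS2 _ hq.1)) ((hmV _).1 (hS2 _ hq.2))
        rw [Finset.card_product, hS1, ← sq] at h1
        exact h1
      have hlt : B.card < V.card := by
        refine hB.trans_lt (lt_of_le_of_lt ?_ hM)
        have h1 : m ^ 2 ≤ M ^ 2 := Nat.pow_le_pow_left (by omega) 2
        have h2 : m ≤ M ^ 2 * V'.card := by
          calc m ≤ M := by omega
            _ ≤ M ^ 2 := Nat.le_self_pow (by norm_num) M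
            _ ≤ M ^ 2 * V'.card := Nat.le_mul_of_pos_right _ hV'1
        calc m + m ^ 2 * (κ * V'.card) ≤ M ^ 2 * V'.card + M ^ 2 * (κ * V'.card) :=
              Nat.add_le_add h2 (Nat.mul_le_mul_right _ h1)
          _ = M ^ 2 * (κ + 1) * V'.card := by ring
      obtain ⟨f, hfV, hfB⟩ := Finset.exists_mem_notMem_of_card_lt_card hlt
      have hfS : f ∉ S := fun h => hfB (Finset.mem_union_left _ h)
      have hrel : ∀ a ∈ S, ∀ b ∈ S, a ≠ b → IsRelPrime (a - b) (f - a) := by
        intro a ha b hb hab
        refine WfDvdMonoid.isRelPrime_of_no_irreducible_factors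
          (fun h => hab (sub_eq_zero.1 h.1)) fun p hp h1 h2 => hfB ?_
        obtain ⟨q, hq, hpq⟩ :=
          UniqueFactorizationMonoid.exists_mem_factors_of_dvd (sub_ne_zero.2 hab) hp h1
        have hq2 : q ∣ f - a := hpq.symm.dvd.trans h2
        obtain ⟨γ, hγ⟩ := hq2
        refine Finset.mem_union_right _ (Finset.mem_biUnion.2
          ⟨(a, b), Finset.mem_product.2 ⟨ha, hb⟩, ?_⟩)
        rw [if_neg hab]
        refine Finset.mem_biUnion.2 ⟨q, Multiset.mem_toFinset.2 hq, ?_⟩
        refine Finset.mem_image.2 ⟨γ, ?_, ?_⟩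
        · rw [hmV', hν2]
          by_cases hγ0 : γ = 0
          · exact Or.inl hγ0
          · refine Or.inr ?_
            have hir := UniqueFactorizationMonoid.irreducible_of_factor q hq
            have h3 := hν1 q γ hir.ne_zero hγ0
            have h4 := hmin q hir.ne_zero hir.not_isUnit
            have h5 : f - a ∈ F (N * (κ + 1) - 1) :=
              sub_mem ((hmV _).1 hfV) ((hmV _).1 (hS2 _ ha))
            rw [hγ, hν2] at h5
            rcases h5 with h5 | h5
            · exact absurd h5 (mul_ne_zero hir.ne_zero hγ0)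
            · have h6 : N * (κ + 1) = N * κ + N := by ring
              have h7 : 1 ≤ N * κ := Nat.one_le_iff_ne_zero.2 (by positivity)
              omega
        · change a + q * γ = f
          rw [← hγ]
          ring
      refine ⟨insert f S, by rw [Finset.card_insert_of_notMem hfS, hS1], ?_, ?_⟩
      · intro g hg
        rcases Finset.mem_insert.1 hg with rfl | hg
        · exact hfV
        · exact hS2 g hg
      · intro a ha b hb c hc hab hac hbc
        rcases Finset.mem_insert.1 ha with ha' | ha <;>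
        rcases Finset.mem_insert.1 hb with hb' | hb <;>
        rcases Finset.mem_insert.1 hc with hc' | hc
        · exact absurd (ha'.trans hb'.symm) hab
        · exact absurd (ha'.trans hb'.symm) hab
        · exact absurd (ha'.trans hc'.symm) hac
        · intro d h1 h2
          rw [ha'] at h1 h2
          refine hrel b hb c hc hbc ?_ h1
          have : b - c = (f - c) - (f - b) := by ring
          rw [this]
          exact dvd_sub h2 h1
        · exact absurd (hb'.trans hc'.symm) hbc
        · intro d h1 h2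
          rw [hb'] at h1
          refine hrel a ha c hc hac h2 ?_
          rw [← neg_sub]
          exact (dvd_neg).2 h1
        · intro d h1 h2
          rw [hc'] at h2
          refine hrel a ha b hb hab h1 ?_
          rw [← neg_sub]
          exact (dvd_neg).2 h2
        · exact hS3 a ha b hb c hc hab hac hbc
  obtain ⟨S, hS1, hS2, hS3⟩ := key M le_rfl
  exact ⟨S, hS1, fun f hf => (hmV f).1 (hS2 f hf), fun f hf g hg h hh h1 h2 h3 w hw =>
    (hS3 f hf g hg h hh h1 h2 h3).dvd_of_dvd_mul_left hw⟩

end Pool.Agent.H248.TW
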