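import Pool.Agent.H248.TW.Defs

/-!
# Products of monomials in the key polynomials
-/

set_option autoImplicit false

namespace Pool.Agent.H248.TW

open Polynomial Submodule

namespace T2bAux

/-- general monomials in the key polynomials -/
noncomputable def EE (K : Type) [Field K] (r : ℕ) (α : ℕ → ℕ) : K[X][X] :=
  ∏ j ∈ Finset.range (r + 2), Xs K j ^ α j

/-- the weights of the key polynomials -/
def dl (r j : ℕ) : ℕ := if j = 0 then 2 ^ r else if j = r + 1 then 2 ^ r else 2 ^ r + 2 ^ (r - j)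

/-- the weight of a general monomial -/
def WW (r : ℕ) (α : ℕ → ℕ) : ℕ := ∑ j ∈ Finset.range (r + 2), α j * dl r j

/-- the second measure -/
def MM (r : ℕ) (α : ℕ → ℕ) : ℕ := ∑ j ∈ Finset.range (r + 2), α j * j

theorem EE_add (K : Type) [Field K] (r : ℕ) (α β : ℕ → ℕ) :
    EE K r (α + β) = EE K r α * EE K r β := by
  unfold EE
  rw [← Finset.prod_mul_distrib]
  exact Finset.prod_congr rfl fun j _ => by rw [Pi.add_apply, pow_add]

theorem WW_add (r : ℕ) (α β : ℕ → ℕ) : WW r (α + β) = WW r α + WW r β := by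
  unfold WW
  rw [← Finset.sum_add_distrib]
  exact Finset.sum_congr rfl fun j _ => by rw [Pi.add_apply, add_mul]

theorem MM_add (r : ℕ) (α β : ℕ → ℕ) : MM r (α + β) = MM r α + MM r β := by
  unfold MM
  rw [← Finset.sum_add_distrib]
  exact Finset.sum_congr rfl fun j _ => by rw [Pi.add_apply, add_mul]

theorem EE_single (K : Type) [Field K] (r j n : ℕ) (hj : j < r + 2) :
    EE K r (Pi.single j n) = Xs K j ^ n := by
  unfold EE
  rw [Finset.prod_eq_single_of_mem j (Finset.mem_range.2 hj)]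
  · rw [Pi.single_eq_same]
  · intro b _ hb
    rw [Pi.single_eq_of_ne hb, pow_zero]

theorem WW_single (r j n : ℕ) (hj : j < r + 2) :
    WW r (Pi.single j n) = n * dl r j := by
  unfold WW
  rw [Finset.sum_eq_single_of_mem j (Finset.mem_range.2 hj)]
  · rw [Pi.single_eq_same]
  · intro b _ hb
    rw [Pi.single_eq_of_ne hb, zero_mul]

theorem MM_single (r j n : ℕ) (hj : j < r + 2) :
    MM r (Pi.single j n) = n * j := by
  unfold MM
  rw [Finset.sum_eq_single_of_mem j (Finset.mem_range.2 hj)]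
  · rw [Pi.single_eq_same]
  · intro b _ hb
    rw [Pi.single_eq_of_ne hb, zero_mul]

theorem EE_normal (K : Type) [Field K] (r : ℕ) (α : ℕ → ℕ)
    (h : ∀ j, 1 ≤ j → j ≤ r → α j ≤ 1) :
    EE K r α = mon K r (α 0, α (r + 1), Finset.univ.filter fun j : Fin r => α ((j : ℕ) + 1) = 1) := by
  unfold EE mon
  rw [Finset.prod_range_succ, Finset.prod_range_succ', Finset.prod_range, Finset.prod_filter]
  have h1 : ∀ j : Fin r, Xs K ((j : ℕ) + 1) ^ α ((j : ℕ) + 1)
      = if α ((j : ℕ) + 1) = 1 then Xs K ((j : ℕ) + 1) else 1 := by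
    intro j
    have hj := h ((j : ℕ) + 1) (by omega) (by omega)
    split_ifs with h2
    · rw [h2, pow_one]
    · have h3 : α ((j : ℕ) + 1) = 0 := by omega
      rw [h3, pow_zero]
  simp only [h1]
  have h0 : Xs K 0 = C X := rfl
  rw [h0]
  ring

theorem WW_normal (r : ℕ) (α : ℕ → ℕ)
    (h : ∀ j, 1 ≤ j → j ≤ r → α j ≤ 1) :
    WW r α = wt r (α 0, α (r + 1), Finset.univ.filter fun j : Fin r => α ((j : ℕ) + 1) = 1) := by
  unfold WW wt
  rw [Finset.sum_range_succ, Finset.sum_range_succ', Finset.sum_range, Finset.sum_filter,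
    Finset.card_filter]
  have h1 : ∀ j : Fin r, α ((j : ℕ) + 1) * dl r ((j : ℕ) + 1)
      = 2 ^ r * (if α ((j : ℕ) + 1) = 1 then 1 else 0)
        + (if α ((j : ℕ) + 1) = 1 then 2 ^ (r - 1 - (j : ℕ)) else 0) := by
    intro j
    have hj := h ((j : ℕ) + 1) (by omega) (by omega)
    have hjr := j.2
    split_ifs with h2
    · rw [h2, dl, if_neg (by omega), if_neg (by omega)]
      have : r - ((j : ℕ) + 1) = r - 1 - (j : ℕ) := by omega
      rw [this]
      ring
    · have h3 : α ((j : ℕ) + 1) = 0 := by omega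
      rw [h3]
      ring
  simp only [h1]
  rw [Finset.sum_add_distrib, ← Finset.mul_sum]
  have h0 : dl r 0 = 2 ^ r := by simp [dl]
  have h0' : dl r (r + 1) = 2 ^ r := by simp [dl]
  rw [h0, h0']
  ring

theorem span_mono_lt (K : Type) [Field K] (r : ℕ) {a b : ℕ} (hab : a ≤ b) :
    span K (mon K r '' {ρ | wt r ρ < a}) ≤ span K (mon K r '' {ρ | wt r ρ < b}) :=
  span_mono (Set.image_mono fun _ h => lt_of_lt_of_le h hab)

theorem EE_red (K : Type) [Field K] (r : ℕ) : ∀ (n m : ℕ) (α : ℕ → ℕ),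
    WW r α = n → MM r α = m →
    ∃ υ : ℕ × ℕ × Finset (Fin r), wt r υ = WW r α ∧ υ.2.1 = α (r + 1) ∧
      EE K r α - mon K r υ ∈ span K (mon K r '' {ρ | wt r ρ < WW r α}) := by
  intro n
  induction n using Nat.strong_induction_on with
  | _ n ihn =>
  intro m
  induction m using Nat.strong_induction_on with
  | _ m ihm =>
  intro α hW hM
  by_cases h : ∀ j, 1 ≤ j → j ≤ r → α j ≤ 1
  · refine ⟨(α 0, α (r + 1), Finset.univ.filter fun j : Fin r => α ((j : ℕ) + 1) = 1),
      (WW_normal r α h).symm, rfl, ?_⟩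
    rw [← EE_normal K r α h, sub_self]
    exact zero_mem _
  · push Not at h
    obtain ⟨j, hj1, hjr, hj2⟩ := h
    -- `α = γ + 2 e_j`
    obtain ⟨γ, hγ⟩ : ∃ γ : ℕ → ℕ, α = γ + Pi.single j 2 := by
      refine ⟨α - Pi.single j 2, ?_⟩
      funext k
      by_cases hk : k = j
      · subst hk
        simp only [Pi.add_apply, Pi.sub_apply, Pi.single_eq_same]
        omega
      · simp only [Pi.add_apply, Pi.sub_apply, Pi.single_eq_of_ne hk]
        omega
    have hγr : γ (r + 1) = α (r + 1) := by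
      rw [hγ, Pi.add_apply, Pi.single_eq_of_ne (by omega)]
      rfl
    have hWα : WW r α = WW r γ + 2 * dl r j := by
      rw [hγ, WW_add, WW_single r j 2 (by omega)]
    have hMα : MM r α = MM r γ + 2 * j := by
      rw [hγ, MM_add, MM_single r j 2 (by omega)]
    have hEα : EE K r α = EE K r γ * Xs K j ^ 2 := by
      rw [hγ, EE_add, EE_single K r j 2 (by omega)]
    -- the lower term
    have hdl : dl r (j + 1) < 2 * dl r j := by
      have hj0 : dl r j = 2 ^ r + 2 ^ (r - j) := by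
        rw [dl, if_neg (by omega), if_neg (by omega)]
      have hp : 0 < 2 ^ r := by positivity
      have hp' : 0 < 2 ^ (r - j) := by positivity
      rw [hj0]
      by_cases hjr' : j = r
      · subst hjr'
        have : dl j (j + 1) = 2 ^ j := by simp [dl]
        rw [this]
        omega
      · have h1 : dl r (j + 1) = 2 ^ r + 2 ^ (r - (j + 1)) := by
          rw [dl, if_neg (by omega), if_neg (by omega)]
        have h2 : 2 ^ (r - (j + 1)) ≤ 2 ^ (r - j) := Nat.pow_le_pow_right (by norm_num) (by omega)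
        rw [h1]
        omega
    have hlow : EE K r γ * Xs K (j + 1) ∈ span K (mon K r '' {ρ | wt r ρ < WW r α}) := by
      have hE : EE K r (γ + Pi.single (j + 1) 1) = EE K r γ * Xs K (j + 1) := by
        rw [EE_add, EE_single K r (j + 1) 1 (by omega), pow_one]
      have hWl : WW r (γ + Pi.single (j + 1) 1) = WW r γ + dl r (j + 1) := by
        rw [WW_add, WW_single r (j + 1) 1 (by omega), one_mul]
      have hlt : WW r (γ + Pi.single (j + 1) 1) < WW r α := by
        rw [hWl, hWα]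
        omega
      obtain ⟨υ, hυ1, -, hυ3⟩ := ihn (WW r (γ + Pi.single (j + 1) 1)) (hW ▸ hlt) _ _ rfl rfl
      rw [← hE]
      have h1 := span_mono_lt K r hlt.le hυ3
      have h2 : mon K r υ ∈ span K (mon K r '' {ρ | wt r ρ < WW r α}) :=
        subset_span ⟨υ, by simpa [hυ1] using hlt, rfl⟩
      have h3 := add_mem h1 h2
      rwa [sub_add_cancel] at h3
    -- the main term
    have key : ∀ β : ℕ → ℕ, β (r + 1) = α (r + 1) → WW r β = WW r α → MM r β < MM r α →
        EE K r α = EE K r β + EE K r γ * Xs K (j + 1) →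
        ∃ υ : ℕ × ℕ × Finset (Fin r), wt r υ = WW r α ∧ υ.2.1 = α (r + 1) ∧
          EE K r α - mon K r υ ∈ span K (mon K r '' {ρ | wt r ρ < WW r α}) := by
      intro β h1 h2 h3 h4
      obtain ⟨υ, hυ1, hυ2, hυ3⟩ := ihm (MM r β) (hM ▸ h3) β (h2.trans hW) rfl
      refine ⟨υ, hυ1.trans h2, hυ2.trans h1, ?_⟩
      rw [h2] at hυ3
      have h5 : EE K r α - mon K r υ
          = (EE K r β - mon K r υ) + EE K r γ * Xs K (j + 1) := by
        rw [h4]; ring
      rw [h5]
      exact add_mem hυ3 hlow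
    have hd0 : dl r 0 = 2 ^ r := by simp [dl]
    by_cases hj' : j = 1
    · subst hj'
      refine key (γ + Pi.single 0 3) ?_ ?_ ?_ ?_
      · rw [Pi.add_apply, Pi.single_eq_of_ne (by omega), ← hγr]
        rfl
      · rw [WW_add, WW_single r 0 3 (by omega), hWα, hd0]
        have h1 : dl r 1 = 2 ^ r + 2 ^ (r - 1) := by
          rw [dl, if_neg (by omega), if_neg (by omega)]
        have h2 : 2 ^ r = 2 * 2 ^ (r - 1) := by
          rw [← pow_succ']
          congr 1
          omega
        rw [h1, h2]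
        omega
      · rw [MM_add, MM_single r 0 3 (by omega), hMα]
        omega
      · rw [EE_add, EE_single K r 0 3 (by omega), hEα]
        have h0 : Xs K 0 = C X := rfl
        have h1 : Xs K 1 = X := rfl
        have h2 : Xs K (1 + 1) = X ^ 2 - (C X) ^ 3 := rfl
        rw [h0, h1, h2]
        ring
    · obtain ⟨i, rfl⟩ : ∃ i, j = i + 2 := ⟨j - 2, by omega⟩
      refine key (γ + Pi.single 0 1 + Pi.single (i + 1) 1) ?_ ?_ ?_ ?_
      · rw [Pi.add_apply, Pi.add_apply, Pi.single_eq_of_ne (by omega),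
          Pi.single_eq_of_ne (by omega), ← hγr]
        rfl
      · rw [WW_add, WW_add, WW_single r 0 1 (by omega), WW_single r (i + 1) 1 (by omega), hWα, hd0]
        have h1 : dl r (i + 1) = 2 ^ r + 2 ^ (r - (i + 1)) := by
          rw [dl, if_neg (by omega), if_neg (by omega)]
        have h2 : dl r (i + 2) = 2 ^ r + 2 ^ (r - (i + 2)) := by
          rw [dl, if_neg (by omega), if_neg (by omega)]
        have h3 : 2 ^ (r - (i + 1)) = 2 * 2 ^ (r - (i + 2)) := by
          rw [← pow_succ']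
          congr 1
          omega
        rw [h1, h2, h3]
        ring
      · rw [MM_add, MM_add, MM_single r 0 1 (by omega), MM_single r (i + 1) 1 (by omega), hMα]
        omega
      · rw [EE_add, EE_add, EE_single K r 0 1 (by omega), EE_single K r (i + 1) 1 (by omega), hEα]
        have h0 : Xs K 0 = C X := rfl
        have h2 : Xs K (i + 2 + 1) = Xs K (i + 2) ^ 2 - C X * Xs K (i + 1) := rfl
        rw [h0, h2]
        ring

/-- the exponents of a normal monomial -/
def exps (r : ℕ) (p : ℕ × ℕ × Finset (Fin r)) : ℕ → ℕ := fun k =>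
  if k = 0 then p.1 else if k = r + 1 then p.2.1 else
    if ∃ j ∈ p.2.2, ((j : Fin r) : ℕ) + 1 = k then 1 else 0

theorem exps_normal (r : ℕ) (p : ℕ × ℕ × Finset (Fin r)) :
    ∀ j, 1 ≤ j → j ≤ r → exps r p j ≤ 1 := by
  intro j h1 h2
  unfold exps
  rw [if_neg (by omega), if_neg (by omega)]
  split_ifs <;> omega

theorem exps_triple (r : ℕ) (p : ℕ × ℕ × Finset (Fin r)) :
    (exps r p 0, exps r p (r + 1),
      Finset.univ.filter fun j : Fin r => exps r p ((j : ℕ) + 1) = 1) = p := by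
  obtain ⟨a, b, s⟩ := p
  refine Prod.ext ?_ (Prod.ext ?_ ?_)
  · simp [exps]
  · simp [exps]
  · ext j
    have hj := j.2
    simp only [Finset.mem_filter, Finset.mem_univ, true_and]
    unfold exps
    rw [if_neg (by omega), if_neg (by omega)]
    constructor
    · intro h
      split_ifs at h with h1
      · obtain ⟨i, hi, hij⟩ := h1
        have : i = j := Fin.ext (by omega)
        rwa [← this]
      
    · intro h
      rw [if_pos ⟨j, h, rfl⟩]

theorem mon_eq_EE (K : Type) [Field K] (r : ℕ) (p : ℕ × ℕ × Finset (Fin r)) :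
    mon K r p = EE K r (exps r p) := by
  rw [EE_normal K r _ (exps_normal r p), exps_triple]

theorem wt_eq_WW (r : ℕ) (p : ℕ × ℕ × Finset (Fin r)) : wt r p = WW r (exps r p) := by
  rw [WW_normal r _ (exps_normal r p), exps_triple]

end T2bAux

open T2bAux in
/-- PROOF SKETCH. General monomials: for `α : ℕ → ℕ` (only the values at `0, …, r + 1` matter) put
`E α = ∏ j ∈ range (r + 2), Xs j ^ α j`, `W α = ∑ j ∈ range (r + 2), α j * δ j` with `δ 0 = 2 ^ r`,
`δ j = 2 ^ r + 2 ^ (r - j)` for `1 ≤ j ≤ r`, `δ (r + 1) = 2 ^ r`. CLAIM: for every `α` there is a normal `υ`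
with `wt υ = W α`, `υ.2.1 = α (r + 1)` and `E α - mon υ ∈ span (mon '' {ρ | wt ρ < W α})`. Strong induction
on `(W α, ∑ j * α j)` (lexicographic). If `α j ≤ 1` for all `1 ≤ j ≤ r`, `E α` is normal
(`υ = (α 0, α (r+1), {j | α (j+1) = 1})`). Otherwise take `1 ≤ j ≤ r` with `α j ≥ 2` and use
`X_1² = X_0³ + X_2` or `X_j² = X_0 X_{j-1} + X_{j+1}` (`j ≥ 2`): `E α = E α' + E α''`, where `W α' = W α`
(`2 δ_1 = 3 δ_0`, `2 δ_j = δ_0 + δ_{j-1}`), `∑ j α' j < ∑ j α j`, the exponent at `r + 1` is unchanged, and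
`W α'' < W α` (`δ_{j+1} < 2 δ_j`). The theorem is the case `α` = sum of the exponents of `σ` and `τ`
(`mon σ * mon τ = E α`, `W α = wt σ + wt τ`). -/
theorem mon_mul (K : Type) [Field K] (r : ℕ) (hr : 1 ≤ r) (σ τ : ℕ × ℕ × Finset (Fin r)) :
    ∃ υ : ℕ × ℕ × Finset (Fin r), wt r υ = wt r σ + wt r τ ∧ υ.2.1 = σ.2.1 + τ.2.1 ∧
      mon K r σ * mon K r τ - mon K r υ ∈
        span K (mon K r '' {ρ | wt r ρ < wt r σ + wt r τ}) := by
  have _ := hr
  obtain ⟨υ, h1, h2, h3⟩ := EE_red K r _ _ (exps r σ + exps r τ) rfl rfl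
  have hW : WW r (exps r σ + exps r τ) = wt r σ + wt r τ := by
    rw [WW_add, ← wt_eq_WW, ← wt_eq_WW]
  refine ⟨υ, h1.trans hW, ?_, ?_⟩
  · rw [h2, Pi.add_apply]
    simp [exps]
  · rw [hW, EE_add, ← mon_eq_EE, ← mon_eq_EE] at h3
    exact h3

end Pool.Agent.H248.TW
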