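import Pool.Agent.H248.TW.Lead
import Pool.Agent.H248.TW.Bas
import Pool.Agent.H248.TW.Mul
import Pool.Agent.H248.TW.CountA
import Pool.Agent.H248.TW.CountB
import Pool.Agent.H248.TW.Bezout
import Pool.Agent.H248.TW.Greedy

/-!
# The filtration of `K[x][y]` and the family of blocks
-/

set_option autoImplicit false

namespace Pool.Agent.H248.TW

open Polynomial Module Submodule

theorem exists_filtration (K : Type) [Field K] (r : ℕ) (hr : 1 ≤ r) :
    ∃ (F : ℕ → Submodule K K[X][X]) (ν : K[X][X] → ℕ), (∀ n, FiniteDimensional K (F n)) ∧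
      (∀ n, finrank K (F n) = {p : ℕ × ℕ × Finset (Fin r) | wt r p ≤ n}.ncard) ∧ Monotone F ∧
      (∀ f g, f ≠ 0 → g ≠ 0 → ν (f * g) = ν f + ν g) ∧
      (∀ n f, f ∈ F n ↔ f = 0 ∨ ν f ≤ n) ∧ (∀ f, f ≠ 0 → ¬ IsUnit f → 2 ^ r ≤ ν f) := by
  classical
  obtain ⟨b, hb⟩ := exists_basis K r
  have hbf : (b : ℕ × ℕ × Finset (Fin r) → K[X][X]) = mon K r := funext hb
  obtain ⟨ν, hν1, hν2⟩ := exists_deg b (wt r) (fun p => p.2.1) (fun σ τ h1 h2 => wt_inj r σ τ h1 h2)
    (fun σ τ => by
      obtain ⟨υ, h1, h2, h3⟩ := mon_mul K r hr σ τ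
      refine ⟨υ, h1, h2, ?_⟩
      rw [hbf]
      exact h3)
  have hfin : ∀ n, Finite ↥(b '' {ρ | wt r ρ ≤ n}) := fun n => ((wt_finite r n).image b).to_subtype
  refine ⟨fun n => span K (b '' {ρ | wt r ρ ≤ n}), ν, fun n => ?_, fun n => ?_, ?_,
    fun f g hf hg => (hν1 f g hf hg).2, hν2, ?_⟩
  · exact FiniteDimensional.span_of_finite K ((wt_finite r n).image b)
  · have h1 : Fintype ↥{ρ : ℕ × ℕ × Finset (Fin r) | wt r ρ ≤ n} := (wt_finite r n).fintype
    have h2 : b '' {ρ | wt r ρ ≤ n} =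
        Set.range (b ∘ (Subtype.val : ↥{ρ | wt r ρ ≤ n} → ℕ × ℕ × Finset (Fin r))) := by
      rw [Set.range_comp, Subtype.range_coe]
    show finrank K (span K (b '' {ρ | wt r ρ ≤ n})) = _
    rw [h2, finrank_span_eq_card (b.linearIndependent.comp _ Subtype.val_injective),
      ← Nat.card_eq_fintype_card]
    rfl
  · intro n n' hn
    exact span_mono (Set.image_mono fun ρ hρ => le_trans hρ hn)
  · intro f hf hu
    by_contra hlt
    rw [not_le] at hlt
    apply hu
    have h1 : f ∈ span K (b '' {ρ | wt r ρ ≤ 2 ^ r - 1}) := (hν2 _ f).2 (Or.inr (by omega))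
    have h2 : b '' {ρ | wt r ρ ≤ 2 ^ r - 1} ⊆ {1} := by
      rintro _ ⟨⟨a, k, ε⟩, hρ, rfl⟩
      have h3 : wt r (a, k, ε) ≤ 2 ^ r - 1 := hρ
      unfold wt at h3
      simp only at h3
      have hpos : 0 < 2 ^ r := by positivity
      have h4 : a + k + ε.card = 0 := by
        by_contra h0
        have h5 : 2 ^ r * 1 ≤ 2 ^ r * (a + k + ε.card) := Nat.mul_le_mul_left _ (by omega)
        omega
      have h5 : a = 0 := by omega
      have h6 : k = 0 := by omega
      have h7 : ε = ∅ := Finset.card_eq_zero.1 (by omega)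
      subst h5 h6 h7
      rw [Set.mem_singleton_iff, hb]
      simp [mon]
    have h3 := span_mono h2 h1
    rw [mem_span_singleton] at h3
    obtain ⟨c, rfl⟩ := h3
    have hc : c ≠ 0 := by rintro rfl; exact hf (zero_smul _ _)
    rw [Algebra.smul_def, mul_one]
    exact (IsUnit.mk0 c hc).map (algebraMap K K[X][X])

/-- the evaluation at a point -/
noncomputable def ev (K : Type) [Field K] (x y : K) : K[X][X] →ₐ[K] K :=
  { evalEvalRingHom x y with
    commutes' := fun c => by
      show evalEval x y (algebraMap K K[X][X] c) = c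
      have : algebraMap K K[X][X] c = C (C c) := rfl
      rw [this, evalEval_C, eval_C] }

theorem ev_apply (K : Type) [Field K] (x y : K) (f : K[X][X]) : ev K x y f = evalEval x y f := rfl

theorem ev_inj {K : Type} [Field K] {x y x' y' : K} (h : ev K x y = ev K x' y') :
    x = x' ∧ y = y' := by
  have h1 : ev K x y (C X) = ev K x' y' (C X) := by rw [h]
  have h2 : ev K x y X = ev K x' y' X := by rw [h]
  rw [ev_apply, ev_apply, evalEval_C, evalEval_C, eval_X, eval_X] at h1
  rw [ev_apply, ev_apply, evalEval_X, evalEval_X] at h2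
  exact ⟨h1, h2⟩

theorem exists_family3 (r l M : ℕ) (hr : 1 ≤ r) (hl : 1 ≤ l)
    (hM : M ^ 2 * (r + 1) < (2 ^ l) ^ (2 ^ (r - 1) * (r + 2))) :
    ∃ (V W : Type) (_ : Fintype V) (_ : Fintype W) (_ : DecidableEq V) (_ : DecidableEq W)
      (D : V → Finset W), Fintype.card W = (2 ^ l) ^ 3 ∧ Fintype.card V = M ∧
      (∀ v, (D v).card = (2 ^ l) ^ 2) ∧
      ∀ A : Finset V, A.card = 3 →
        (Finset.univ.filter fun w : W => ∀ v ∈ A, w ∈ D v).card ≤
          2 ^ r * (r + 1) * (2 * r + 1) := by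
  classical
  have : Fact (Nat.Prime 2) := ⟨Nat.prime_two⟩
  let K := GaloisField 2 l
  have hcardK : Nat.card K = 2 ^ l := GaloisField.card 2 l (by omega)
  have : Fintype K := Fintype.ofFinite K
  have hcardK' : Fintype.card K = 2 ^ l := by rw [← Nat.card_eq_fintype_card]; exact hcardK
  obtain ⟨F, ν, hF1, hF2, hF3, hν1, hν2, hmin⟩ := exists_filtration K r hr
  have hcardF : ∀ n, Nat.card (F n) = (2 ^ l) ^ (finrank K (F n)) := by
    intro n
    have := hF1 n
    rw [Module.natCard_eq_pow_finrank (K := K), hcardK]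
  have hfinF : ∀ n, Finite (F n) := by
    intro n
    have := hF1 n
    exact Module.finite_of_finite K
  have hMM : M ^ 2 * (r + 1) * Nat.card (F (2 ^ r * r - 1)) <
      Nat.card (F (2 ^ r * (r + 1) - 1)) := by
    rw [hcardF, hcardF, hF2, hF2, count_one r hr, pow_add, mul_comm]
    apply Nat.mul_lt_mul_of_pos_left hM
    positivity
  obtain ⟨S, hS1, hS2, hS3⟩ := greedy F hfinF ν hν1 hν2 (2 ^ r) r (Nat.one_le_two_pow) hr hmin M hMM
  let D : S → Finset (K × K × K) := fun f =>
    Finset.univ.filter fun w => evalEval w.1 w.2.1 (f : K[X][X]) = w.2.2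
  have hD : ∀ f w, w ∈ D f ↔ evalEval w.1 w.2.1 (f : K[X][X]) = w.2.2 := by
    intro f w
    simp only [D, Finset.mem_filter, Finset.mem_univ, true_and]
  refine ⟨S, K × K × K, inferInstance, inferInstance, inferInstance, inferInstance, D, ?_, ?_, ?_, ?_⟩
  · rw [Fintype.card_prod, Fintype.card_prod, hcardK']; ring
  · rw [Fintype.card_coe, hS1]
  · intro f
    have h1 : D f = (Finset.univ : Finset (K × K)).image
        fun p => (p.1, p.2, evalEval p.1 p.2 (f : K[X][X])) := by
      ext w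
      rw [hD, Finset.mem_image]
      constructor
      · intro h
        refine ⟨(w.1, w.2.1), Finset.mem_univ _, ?_⟩
        simp only
        rw [h]
      · rintro ⟨p, _, rfl⟩
        rfl
    rw [h1, Finset.card_image_of_injective, Finset.card_univ, Fintype.card_prod, hcardK']
    · ring
    · intro p p' h
      simp only [Prod.mk.injEq] at h
      exact Prod.ext h.1 h.2.1
  · intro A hA
    obtain ⟨f, g, h, hfg, hfh, hgh, rfl⟩ := Finset.card_eq_three.1 hA
    set Cm := Finset.univ.filter fun w : K × K × K => ∀ v ∈ ({f, g, h} : Finset S), w ∈ D v with hCm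
    have hmem : ∀ w ∈ Cm, evalEval w.1 w.2.1 (f : K[X][X]) = w.2.2 ∧
        evalEval w.1 w.2.1 (g : K[X][X]) = w.2.2 ∧ evalEval w.1 w.2.1 (h : K[X][X]) = w.2.2 := by
      intro w hw
      have h1 := (Finset.mem_filter.1 hw).2
      exact ⟨(hD _ _).1 (h1 f (by simp)), (hD _ _).1 (h1 g (by simp)), (hD _ _).1 (h1 h (by simp))⟩
    have hfg' : (f : K[X][X]) ≠ g := fun e => hfg (Subtype.ext e)
    have hfh' : (f : K[X][X]) ≠ h := fun e => hfh (Subtype.ext e)
    have hgh' : (g : K[X][X]) ≠ h := fun e => hgh (Subtype.ext e)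
    have hsub : ∀ p p' : S, (p : K[X][X]) ≠ p' → ν ((p : K[X][X]) - p') < 2 ^ r * (r + 1) := by
      intro p p' hne
      have h1 := (F (2 ^ r * (r + 1) - 1)).sub_mem (hS2 p p.2) (hS2 p' p'.2)
      have h2 := (hν2 _ _).1 h1
      have h3 : 0 < 2 ^ r * (r + 1) := by positivity
      rcases h2 with h2 | h2
      · exact absurd (sub_eq_zero.1 h2) hne
      · omega
    have hb := bezout F hF1 hF3 (fun f => ⟨ν f, (hν2 _ _).2 (Or.inr le_rfl)⟩) ν hν1 hν2
      ((f : K[X][X]) - g) ((f : K[X][X]) - h) (sub_ne_zero.2 hfg') (sub_ne_zero.2 hfh')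
      (hS3 f f.2 g g.2 h h.2 hfg' hfh' hgh') (2 ^ r * (r + 1) * (2 * r + 1)) (fun n hn => by
        rw [hF2, hF2, hF2, hF2]
        have h1 := count_two r r n (ν ((f : K[X][X]) - g)) (ν ((f : K[X][X]) - h)) hn
          (hsub f g hfg') (hsub f h hfh')
        have h2 : r + r + 1 = 2 * r + 1 := by ring
        rw [h2] at h1
        exact h1)
      (Cm.image fun w => ev K w.1 w.2.1) (by
        intro χ hχ
        obtain ⟨w, hw, rfl⟩ := Finset.mem_image.1 hχ
        obtain ⟨h1, h2, h3⟩ := hmem w hw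
        rw [map_sub, map_sub, ev_apply, ev_apply, ev_apply, h1, h2, h3, sub_self]
        exact ⟨rfl, rfl⟩)
    rwa [Finset.card_image_of_injOn] at hb
    intro w hw w' hw' hww
    obtain ⟨h1, h2⟩ := ev_inj hww
    have e1 := (hmem w hw).1
    have e2 := (hmem w' hw').1
    refine Prod.ext h1 (Prod.ext h2 ?_)
    rw [← e1, ← e2, h1, h2]

end Pool.Agent.H248.TW
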