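import Mathlib

/-!
# Leading terms and a multiplicative degree function
-/

set_option autoImplicit false

namespace Pool.Agent.H248.TW

open Module Submodule

namespace T1aux

section

variable {K R ι : Type*} [Field K] [CommRing R] [Algebra K R] (b : Basis ι K R) (ω k : ι → ℕ)

/-- the lexicographic order -/
def lo (ρ σ : ι) : Prop := ω ρ < ω σ ∨ (ω ρ = ω σ ∧ k ρ < k σ)

/-- the span of the smaller basis elements -/
def Lt (σ : ι) : Submodule K R := span K (b '' {ρ | lo ω k ρ σ})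

/-- the span of the smaller or equal basis elements -/
def Le (σ : ι) : Submodule K R := span K (b '' {ρ | lo ω k ρ σ ∨ ρ = σ})

theorem Lt_le_Le (σ : ι) : Lt b ω k σ ≤ Le b ω k σ := by
  apply span_mono
  apply Set.image_mono
  intro ρ h
  exact Or.inl h

theorem b_mem_Le (σ : ι) : b σ ∈ Le b ω k σ := subset_span ⟨σ, Or.inr rfl, rfl⟩

theorem Lt_mul_Le
    (hmul : ∀ σ τ, ∃ υ, ω υ = ω σ + ω τ ∧ k υ = k σ + k τ ∧
      b σ * b τ - b υ ∈ span K (b '' {ρ | ω ρ < ω σ + ω τ}))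
    (σ τ υ : ι) (h1 : ω υ = ω σ + ω τ) (h2 : k υ = k σ + k τ) :
    Lt b ω k σ * Le b ω k τ ≤ Lt b ω k υ := by
  unfold Lt Le
  rw [span_mul_span, span_le]
  rintro _ ⟨_, ⟨ρ, hρ, rfl⟩, _, ⟨ρ', hρ', rfl⟩, rfl⟩
  simp only
  obtain ⟨υ', e1, e2, e3⟩ := hmul ρ ρ'
  have hρ2 : lo ω k ρ σ := hρ
  have hρ3 : lo ω k ρ' τ ∨ ρ' = τ := hρ'
  have h3 : b ρ * b ρ' = b υ' + (b ρ * b ρ' - b υ') := by ring
  rw [h3]
  have h4 : lo ω k υ' υ := by
    unfold lo at hρ2 hρ3 ⊢
    rcases hρ3 with h | h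
    · omega
    · subst h
      omega
  refine (span K _).add_mem (subset_span ⟨υ', h4, rfl⟩) ?_
  refine span_mono (Set.image_mono ?_) e3
  intro x hx
  have hx' : ω x < ω ρ + ω ρ' := hx
  show lo ω k x υ
  unfold lo at hρ2 hρ3 ⊢
  left
  rcases hρ3 with h | h
  · omega
  · subst h
    omega

/-- `f` has the leading term `c b_σ` -/
def HasLead (f : R) (σ : ι) (c : K) : Prop := c ≠ 0 ∧ f - c • b σ ∈ Lt b ω k σ

theorem exists_lead (hinj : ∀ σ τ, ω σ = ω τ → k σ = k τ → σ = τ) {f : R} (hf : f ≠ 0) :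
    ∃ σ c, HasLead b ω k f σ c := by
  classical
  have hne : (b.repr f).support.Nonempty := by
    rw [Finsupp.support_nonempty_iff]
    intro h
    exact hf (by rwa [LinearEquiv.map_eq_zero_iff] at h)
  obtain ⟨σ, hσ, hmax⟩ := Finset.exists_max_image (b.repr f).support
    (fun ρ => (toLex (ω ρ, k ρ) : ℕ ×ₗ ℕ)) hne
  refine ⟨σ, b.repr f σ, Finsupp.mem_support_iff.1 hσ, ?_⟩
  unfold Lt
  rw [Basis.mem_span_image]
  intro ρ hρ
  rw [Finset.mem_coe, Finsupp.mem_support_iff, map_sub, map_smul, Basis.repr_self,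
    Finsupp.sub_apply, Finsupp.smul_apply, smul_eq_mul] at hρ
  have hne2 : ρ ≠ σ := by
    rintro rfl
    rw [Finsupp.single_eq_same, mul_one, sub_self] at hρ
    exact hρ rfl
  rw [Finsupp.single_eq_of_ne hne2, mul_zero, sub_zero] at hρ
  have h1 := hmax ρ (Finsupp.mem_support_iff.2 hρ)
  rw [Prod.Lex.toLex_le_toLex] at h1
  simp only at h1
  show lo ω k ρ σ
  unfold lo
  rcases h1 with h1 | ⟨h1, h2⟩
  · exact Or.inl h1
  · rcases h2.lt_or_eq with h3 | h3
    · exact Or.inr ⟨h1, h3⟩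
    · exact absurd (hinj ρ σ h1 h3) hne2

theorem lead_coeff {f : R} {σ : ι} {c : K} (h : HasLead b ω k f σ c) : b.repr f σ = c := by
  have h2 := h.2
  unfold Lt at h2
  rw [Basis.mem_span_image] at h2
  have h3 : σ ∉ (b.repr (f - c • b σ)).support := by
    intro h4
    have h5 : lo ω k σ σ := h2 h4
    unfold lo at h5
    omega
  rw [Finsupp.notMem_support_iff, map_sub, map_smul, Basis.repr_self,
    Finsupp.sub_apply, Finsupp.smul_apply, smul_eq_mul, Finsupp.single_eq_same, mul_one,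
    sub_eq_zero] at h3
  exact h3

theorem lead_ne {f : R} {σ : ι} {c : K} (h : HasLead b ω k f σ c) : f ≠ 0 := by
  rintro rfl
  have := lead_coeff b ω k h
  rw [map_zero, Finsupp.zero_apply] at this
  exact h.1 this.symm

theorem lead_mem {f : R} {σ : ι} {c : K} (h : HasLead b ω k f σ c) (n : ℕ) :
    f ∈ span K (b '' {ρ | ω ρ ≤ n}) ↔ ω σ ≤ n := by
  constructor
  · intro hf
    rw [Basis.mem_span_image] at hf
    have h3 : σ ∈ (b.repr f).support := by
      rw [Finsupp.mem_support_iff, lead_coeff b ω k h]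
      exact h.1
    exact hf h3
  · intro hn
    have e : f = c • b σ + (f - c • b σ) := by abel
    rw [e]
    refine (span K _).add_mem ((span K _).smul_mem c (subset_span ⟨σ, hn, rfl⟩)) ?_
    refine span_mono (Set.image_mono ?_) h.2
    intro x hx
    have hx' : lo ω k x σ := hx
    show ω x ≤ n
    unfold lo at hx'
    omega

theorem lead_mul
    (hmul : ∀ σ τ, ∃ υ, ω υ = ω σ + ω τ ∧ k υ = k σ + k τ ∧
      b σ * b τ - b υ ∈ span K (b '' {ρ | ω ρ < ω σ + ω τ}))
    {f g : R} {σ τ : ι} {c d : K} (hf : HasLead b ω k f σ c) (hg : HasLead b ω k g τ d) :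
    ∃ υ, ω υ = ω σ + ω τ ∧ HasLead b ω k (f * g) υ (c * d) := by
  obtain ⟨υ, h1, h2, h3⟩ := hmul σ τ
  refine ⟨υ, h1, mul_ne_zero hf.1 hg.1, ?_⟩
  have e : f * g - (c * d) • b υ = (c * d) • (b σ * b τ - b υ) + (g - d • b τ) * (c • b σ)
      + (f - c • b σ) * g := by
    simp only [Algebra.smul_def, map_mul]
    ring
  rw [e]
  have hgL : g ∈ Le b ω k τ := by
    have e2 : g = d • b τ + (g - d • b τ) := by abel
    rw [e2]
    exact (Le b ω k τ).add_mem ((Le b ω k τ).smul_mem d (b_mem_Le b ω k τ))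
      (Lt_le_Le b ω k τ hg.2)
  refine (Lt b ω k υ).add_mem ((Lt b ω k υ).add_mem ((Lt b ω k υ).smul_mem _ ?_) ?_) ?_
  · refine span_mono (Set.image_mono ?_) h3
    intro x hx
    have hx' : ω x < ω σ + ω τ := hx
    show lo ω k x υ
    unfold lo
    left
    omega
  · exact Lt_mul_Le b ω k hmul τ σ υ (by omega) (by omega)
      (mul_mem_mul hg.2 ((Le b ω k σ).smul_mem c (b_mem_Le b ω k σ)))
  · exact Lt_mul_Le b ω k hmul σ τ υ h1 h2 (mul_mem_mul hf.2 hgL)

end

end T1aux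

/-- PROOF SKETCH. Order the index set by the pair `(ω σ, k σ)` lexicographically (`ω` first); by `hinj`
this is a total order on `ι`, and it is compatible with the products: for `f ≠ 0` let `lead f` be the
index of the support of `b.repr f` with the largest pair (`Finset.exists_max_image` with values in
`ℕ ×ₗ ℕ`), and `ν f = ω (lead f)` (`ν 0 = 0`). Let `L p` be the span of the `b ρ` with pair `< p`.
By `hmul`, `b σ * b τ` is `b υ` + an element of the span of the `ρ` with `ω ρ < ω σ + ω τ`, where the pair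
of `υ` is the sum of the pairs. So `(c b σ + L (pair σ)) (d b τ + L (pair τ)) ⊆ c d b υ + L (pair υ)`
(smaller pairs have smaller sums), so `lead (f g) = υ`, the coefficient `c d ≠ 0`, and
`ν (f g) = ν f + ν g`. Second part: `f` is in the span of the `b ρ`, `ω ρ ≤ n`, iff its support is in
this set iff `f = 0` or `ω (lead f) ≤ n`. -/
theorem exists_deg {K R ι : Type*} [Field K] [CommRing R] [Algebra K R] (b : Basis ι K R)
    (ω k : ι → ℕ) (hinj : ∀ σ τ, ω σ = ω τ → k σ = k τ → σ = τ)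
    (hmul : ∀ σ τ, ∃ υ, ω υ = ω σ + ω τ ∧ k υ = k σ + k τ ∧
      b σ * b τ - b υ ∈ span K (b '' {ρ | ω ρ < ω σ + ω τ})) :
    ∃ ν : R → ℕ, (∀ f g, f ≠ 0 → g ≠ 0 → f * g ≠ 0 ∧ ν (f * g) = ν f + ν g) ∧
      ∀ n f, f ∈ span K (b '' {ρ | ω ρ ≤ n}) ↔ f = 0 ∨ ν f ≤ n := by
  classical
  have hν : ∀ f : R, ∃ n : ℕ, ∀ σ c, T1aux.HasLead b ω k f σ c → ω σ = n := by
    intro f
    by_cases hf : f = 0
    · refine ⟨0, fun σ c h => ?_⟩
      exact absurd hf (T1aux.lead_ne b ω k h)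
    · obtain ⟨σ, c, h⟩ := T1aux.exists_lead b ω k hinj hf
      refine ⟨ω σ, fun σ' c' h' => ?_⟩
      have h1 := (T1aux.lead_mem b ω k h (ω σ)).2 le_rfl
      have h2 := (T1aux.lead_mem b ω k h' (ω σ')).2 le_rfl
      have h3 := (T1aux.lead_mem b ω k h' (ω σ)).1 h1
      have h4 := (T1aux.lead_mem b ω k h (ω σ')).1 h2
      omega
  choose ν hν using hν
  refine ⟨ν, ?_, ?_⟩
  · intro f g hf hg
    obtain ⟨σ, c, h⟩ := T1aux.exists_lead b ω k hinj hf
    obtain ⟨τ, d, h'⟩ := T1aux.exists_lead b ω k hinj hg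
    obtain ⟨υ, h1, h2⟩ := T1aux.lead_mul b ω k hmul h h'
    refine ⟨T1aux.lead_ne b ω k h2, ?_⟩
    rw [← hν _ _ _ h2, ← hν _ _ _ h, ← hν _ _ _ h', h1]
  · intro n f
    by_cases hf : f = 0
    · subst hf
      exact ⟨fun _ => Or.inl rfl, fun _ => (span K _).zero_mem⟩
    · obtain ⟨σ, c, h⟩ := T1aux.exists_lead b ω k hinj hf
      rw [T1aux.lead_mem b ω k h n, hν _ _ _ h]
      constructor
      · exact Or.inr
      · rintro (h0 | h0)
        · exact absurd h0 hf
        · exact h0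

end Pool.Agent.H248.TW
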