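import Mathlib

/-!
# The choice of the field size
-/

set_option autoImplicit false

namespace Pool.Agent.H248.TW

/-- PROOF SKETCH. `l = Nat.log 8 n ≥ 1`, `q = 2 ^ l`, `8 ^ l = q ^ 3 ≤ n < 8 q ^ 3`. Let
`M = Nat.sqrt ((q ^ ρ - 1) / (r + 1))`; then `M ^ 2 (r + 1) ≤ q ^ ρ - 1 < q ^ ρ`, `M ≥ 1` (since
`q ^ ρ ≥ 2 ^ ρ ≥ r + 2`) and `(M + 1) ^ 2 (r + 1) ≥ q ^ ρ`, so `2 M (r + 1) ≥ q ^ (ρ / 2)` (real
exponent). `m ≤ n ^ (ρ / 6) ≤ (8 q ^ 3) ^ (ρ / 6) = 2 ^ (ρ / 2) q ^ (ρ / 2) ≤ 2 ^ ρ * 2 M (r + 1)`. So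
`min m M ≥ m / (2 * 2 ^ ρ (r + 1))`; and `q ^ 2 = (q ^ 3) ^ (2 / 3) ≥ (n / 8) ^ (2 / 3) = n ^ (2 / 3) / 4`. -/
theorem num3 (r ρ : ℕ) (hr : 1 ≤ r) (hρ : r + 2 ≤ 2 ^ ρ) (n m : ℕ) (hn : 8 ≤ n) (hm : 1 ≤ m)
    (hmn : (m : ℝ) ≤ (n : ℝ) ^ ((ρ : ℝ) / 6)) :
    ∃ l M : ℕ, 1 ≤ l ∧ (2 ^ l) ^ 3 ≤ n ∧ M ^ 2 * (r + 1) < (2 ^ l) ^ ρ ∧
      1 / (8 * 2 ^ ρ * ((r : ℝ) + 1)) * m * (n : ℝ) ^ ((2 : ℝ) / 3) ≤
        ((min m M * (2 ^ l) ^ 2 : ℕ) : ℝ) := by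
  have hl1 : 1 ≤ Nat.log 8 n := Nat.log_pos (by norm_num) hn
  obtain ⟨l, hl⟩ : ∃ l, l = Nat.log 8 n := ⟨_, rfl⟩
  rw [← hl] at hl1
  have h8 : ∀ k : ℕ, (8 : ℕ) ^ k = (2 ^ k) ^ 3 := by
    intro k
    rw [← pow_mul, mul_comm, pow_mul]
    norm_num
  have hlo : (2 ^ l) ^ 3 ≤ n := by
    rw [← h8, hl]
    exact Nat.pow_log_le_self 8 (by omega)
  have hhi : n < 8 * (2 ^ l) ^ 3 := by
    have := Nat.lt_pow_succ_log_self (b := 8) (by norm_num) n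
    rw [← hl, Nat.succ_eq_add_one, pow_succ, h8, mul_comm] at this
    exact this
  obtain ⟨q, hq⟩ : ∃ q : ℕ, q = 2 ^ l := ⟨_, rfl⟩
  rw [← hq] at hlo hhi
  have hq2 : 2 ≤ q := by
    rw [hq]
    calc 2 = 2 ^ 1 := rfl
      _ ≤ 2 ^ l := Nat.pow_le_pow_right (by norm_num) hl1
  have hqρ : r + 2 ≤ q ^ ρ := hρ.trans (Nat.pow_le_pow_left hq2 ρ)
  obtain ⟨M, hM⟩ : ∃ M, M = Nat.sqrt ((q ^ ρ - 1) / (r + 1)) := ⟨_, rfl⟩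
  have hM1 : M ^ 2 * (r + 1) < q ^ ρ := by
    have h1 : M * M ≤ (q ^ ρ - 1) / (r + 1) := by
      rw [hM]
      exact Nat.sqrt_le _
    have h2 := (Nat.le_div_iff_mul_le (by omega : 0 < r + 1)).1 h1
    rw [pow_two]
    omega
  have hM2 : 1 ≤ M := by
    rw [hM]
    apply Nat.sqrt_pos.2
    exact Nat.div_pos (by omega) (by omega)
  have hM3 : q ^ ρ ≤ (M + 1) ^ 2 * (r + 1) := by
    have h1 : (q ^ ρ - 1) / (r + 1) < (M + 1) * (M + 1) := by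
      rw [hM]
      exact Nat.lt_succ_sqrt _
    have h2 := (Nat.div_lt_iff_lt_mul (by omega : 0 < r + 1)).1 h1
    rw [pow_two]
    omega
  have hqR : (0 : ℝ) < q := by
    have : 0 < q := by omega
    exact_mod_cast this
  have hrR : (1 : ℝ) ≤ r := by exact_mod_cast hr
  have hMR : (1 : ℝ) ≤ M := by exact_mod_cast hM2
  have hmR : (0 : ℝ) ≤ m := Nat.cast_nonneg m
  -- the bound of `q ^ (ρ / 2)`
  have hs : (q : ℝ) ^ ((ρ : ℝ) / 2) ≤ 2 * M * (r + 1) := by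
    have h1 : ((q : ℝ) ^ ((ρ : ℝ) / 2)) ^ 2 = (q : ℝ) ^ ρ := by
      rw [← Real.rpow_natCast, ← Real.rpow_mul hqR.le, ← Real.rpow_natCast]
      congr 1
      push_cast
      ring
    have h2 : (q : ℝ) ^ ρ ≤ ((M : ℝ) + 1) ^ 2 * (r + 1) := by exact_mod_cast hM3
    have h3 : ((M : ℝ) + 1) ^ 2 * (r + 1) ≤ (2 * M * (r + 1)) ^ 2 := by
      have h4 : ((M : ℝ) + 1) ^ 2 ≤ (2 * M) ^ 2 := by
        apply pow_le_pow_left₀ (by linarith)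
        linarith
      have h5 : ((r : ℝ) + 1) ≤ (r + 1) ^ 2 := by nlinarith
      calc ((M : ℝ) + 1) ^ 2 * (r + 1) ≤ (2 * M) ^ 2 * (r + 1) ^ 2 :=
            mul_le_mul h4 h5 (by linarith) (by positivity)
        _ = _ := by ring
    refine le_of_sq_le_sq ?_ (by positivity)
    rw [h1]
    exact h2.trans h3
  have hn2 : (n : ℝ) ≤ (2 * q) ^ 3 := by
    have : n ≤ (2 * q) ^ 3 := by
      rw [mul_pow]
      exact hhi.le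
    exact_mod_cast this
  have hm2 : (m : ℝ) ≤ 2 ^ ρ * (2 * M * (r + 1)) := by
    have h1 : (n : ℝ) ^ ((ρ : ℝ) / 6) ≤ ((2 * q : ℝ) ^ 3) ^ ((ρ : ℝ) / 6) :=
      Real.rpow_le_rpow (Nat.cast_nonneg n) hn2 (by positivity)
    have h2 : ((2 * q : ℝ) ^ 3) ^ ((ρ : ℝ) / 6) =
        (2 : ℝ) ^ ((ρ : ℝ) / 2) * (q : ℝ) ^ ((ρ : ℝ) / 2) := by
      rw [← Real.mul_rpow (by norm_num) hqR.le, ← Real.rpow_natCast,
        ← Real.rpow_mul (by positivity)]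
      congr 1
      push_cast
      ring
    have h3 : (2 : ℝ) ^ ((ρ : ℝ) / 2) ≤ 2 ^ ρ := by
      rw [← Real.rpow_natCast]
      apply Real.rpow_le_rpow_of_exponent_le (by norm_num)
      have : (0 : ℝ) ≤ ρ := Nat.cast_nonneg ρ
      linarith
    calc (m : ℝ) ≤ (n : ℝ) ^ ((ρ : ℝ) / 6) := hmn
      _ ≤ (2 : ℝ) ^ ((ρ : ℝ) / 2) * (q : ℝ) ^ ((ρ : ℝ) / 2) := h1.trans h2.le
      _ ≤ _ := mul_le_mul h3 hs (by positivity) (by positivity)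
  have hmin : (m : ℝ) ≤ (2 * 2 ^ ρ * (r + 1)) * (min m M : ℕ) := by
    rcases le_total m M with h | h
    · rw [min_eq_left h]
      have h1 : (1 : ℝ) ≤ 2 * 2 ^ ρ * (r + 1) := by
        have h2 : (1 : ℝ) ≤ 2 ^ ρ := one_le_pow₀ (by norm_num)
        nlinarith
      nlinarith
    · rw [min_eq_right h]
      calc (m : ℝ) ≤ 2 ^ ρ * (2 * M * (r + 1)) := hm2
        _ = _ := by ring
  have hn3 : (n : ℝ) ^ ((2 : ℝ) / 3) ≤ 4 * (q : ℝ) ^ 2 := by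
    have h1 : (n : ℝ) ^ ((2 : ℝ) / 3) ≤ ((2 * q : ℝ) ^ 3) ^ ((2 : ℝ) / 3) :=
      Real.rpow_le_rpow (Nat.cast_nonneg n) hn2 (by norm_num)
    have h2 : ((2 * q : ℝ) ^ 3) ^ ((2 : ℝ) / 3) = 4 * (q : ℝ) ^ 2 := by
      rw [← Real.rpow_natCast, ← Real.rpow_mul (by positivity)]
      have : ((3 : ℕ) : ℝ) * (2 / 3) = ((2 : ℕ) : ℝ) := by norm_num
      rw [this, Real.rpow_natCast]
      ring
    exact h1.trans h2.le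
  refine ⟨l, M, hl1, ?_, ?_, ?_⟩
  · rw [← hq]
    exact hlo
  · rw [← hq]
    exact hM1
  · rw [← hq]
    push_cast
    have hpos : (0 : ℝ) < 8 * 2 ^ ρ * ((r : ℝ) + 1) := by positivity
    rw [one_div, mul_assoc, inv_mul_le_iff₀ hpos]
    have hmin' : (m : ℝ) ≤ (2 * 2 ^ ρ * (r + 1)) * min (m : ℝ) (M : ℝ) := by
      have := hmin
      push_cast at this
      exact this
    have h0 : (0 : ℝ) ≤ (2 * 2 ^ ρ * (r + 1)) * min (m : ℝ) (M : ℝ) := hmR.trans hmin'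
    calc (m : ℝ) * (n : ℝ) ^ ((2 : ℝ) / 3) ≤
          ((2 * 2 ^ ρ * (r + 1)) * min (m : ℝ) (M : ℝ)) * (4 * (q : ℝ) ^ 2) :=
            mul_le_mul hmin' hn3 (by positivity) h0
      _ = _ := by ring

end Pool.Agent.H248.TW
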