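import Mathlib

/-!
# The exponent
-/

set_option autoImplicit false

namespace Pool.Agent.H248.TW

/-- PROOF SKETCH. `c = 1 / 200`. For `t ≤ 12`, `c t / log t ≤ c * 12 / log 2 ≤ 1 / 3`. For `t ≥ 13` let `r ≥ 1`
be the largest number with `2 ^ r (r + 1) (2 r + 1) < t` (`r = 1` gives `12 < t`). Then
`t ≤ 2 ^ (r + 1) (r + 2) (2 r + 3) ≤ 2 ^ (r + 2) (r + 2) ^ 2`, so
`2 ^ (r - 1) (r + 2) / 6 ≥ t / (48 (r + 2))`; and `2 ^ r * 6 ≤ 2 ^ r (r + 1) (2 r + 1) < t` gives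
`(r + 2) log 2 < log t` (`4 ≤ 6`), so `r + 2 ≤ log t / log 2 ≤ 2 log t` and
`t / (48 (r + 2)) ≥ t / (96 log t) ≥ c t / log t`. -/
theorem num_final : ∃ c : ℝ, 0 < c ∧ ∀ t : ℕ, 2 ≤ t → c * t / Real.log t ≤ 1 / 3 ∨
    ∃ r : ℕ, 1 ≤ r ∧ 2 ^ r * (r + 1) * (2 * r + 1) < t ∧
      c * t / Real.log t ≤ ((2 ^ (r - 1) * (r + 2) : ℕ) : ℝ) / 6 := by
  refine ⟨1 / 200, by norm_num, ?_⟩
  intro t ht
  have hl2 : (0.69 : ℝ) < Real.log 2 := by linarith [Real.log_two_gt_d9]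
  have ht0 : (0 : ℝ) < t := by
    have : 0 < t := by omega
    exact_mod_cast this
  rcases Nat.lt_or_ge t 13 with h | h
  · left
    have h1 : Real.log 2 ≤ Real.log t := by
      apply Real.log_le_log (by norm_num)
      exact_mod_cast ht
    have h2 : (t : ℝ) ≤ 12 := by
      have : t ≤ 12 := by omega
      exact_mod_cast this
    rw [div_le_iff₀ (by linarith)]
    linarith
  · right
    have hex : ∃ k : ℕ, t ≤ 2 ^ k * (k + 1) * (2 * k + 1) := by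
      refine ⟨t, ?_⟩
      have h1 : 1 ≤ 2 ^ t := Nat.one_le_two_pow
      calc t ≤ 1 * (t + 1) * 1 := by omega
        _ ≤ 2 ^ t * (t + 1) * (2 * t + 1) :=
          Nat.mul_le_mul (Nat.mul_le_mul_right _ h1) (by omega)
    obtain ⟨k, hk, hmin⟩ : ∃ k : ℕ, t ≤ 2 ^ k * (k + 1) * (2 * k + 1) ∧
        ∀ j < k, ¬ t ≤ 2 ^ j * (j + 1) * (2 * j + 1) :=
      ⟨Nat.find hex, Nat.find_spec hex, fun j hj => Nat.find_min hex hj⟩
    have hk2 : 2 ≤ k := by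
      by_contra hcon
      have hk' : k = 0 ∨ k = 1 := by omega
      rcases hk' with rfl | rfl
      · norm_num at hk
        omega
      · norm_num at hk
        omega
    obtain ⟨s, rfl⟩ : ∃ s, k = s + 2 := ⟨k - 2, by omega⟩
    have h1 := hmin (s + 1) (by omega)
    rw [not_le] at h1
    refine ⟨s + 1, by omega, h1, ?_⟩
    have e1 : s + 1 - 1 = s := by omega
    rw [e1]
    have hp : (0 : ℝ) < 2 ^ s := by positivity
    have hs : (0 : ℝ) ≤ s := Nat.cast_nonneg s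
    have h2 : (t : ℝ) ≤ 8 * 2 ^ s * ((s : ℝ) + 3) ^ 2 := by
      have h3 : (t : ℝ) ≤ 2 ^ (s + 2) * ((s : ℝ) + 2 + 1) * (2 * ((s : ℝ) + 2) + 1) := by
        exact_mod_cast hk
      refine h3.trans ?_
      rw [pow_add]
      nlinarith [mul_nonneg hp.le hs]
    have h3 : ((s : ℝ) + 3) * Real.log 2 ≤ Real.log t := by
      have h4 : (2 : ℝ) ^ (s + 3) ≤ t := by
        have h5 : 2 ^ (s + 3) ≤ t := by
          refine le_trans ?_ h1.le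
          calc 2 ^ (s + 3) = 2 ^ (s + 1) * 4 := by ring
            _ ≤ 2 ^ (s + 1) * ((s + 1 + 1) * (2 * (s + 1) + 1)) := by
              apply Nat.mul_le_mul_left
              nlinarith
            _ = 2 ^ (s + 1) * (s + 1 + 1) * (2 * (s + 1) + 1) := by ring
        exact_mod_cast h5
      have h6 := Real.log_le_log (by positivity) h4
      rw [Real.log_pow] at h6
      push_cast at h6
      exact h6
    have h4 : ((s : ℝ) + 3) * 0.69 ≤ Real.log t := by nlinarith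
    have h5 : 0 < Real.log t := by nlinarith
    rw [div_le_iff₀ h5]
    push_cast
    have h6 : (0 : ℝ) ≤ 2 ^ s * ((s : ℝ) + 3) := by positivity
    have h7 := mul_le_mul_of_nonneg_left h4 h6
    have e2 : (2 : ℝ) ^ s * ((s : ℝ) + 1 + 2) / 6 * Real.log t =
        (2 ^ s * ((s : ℝ) + 3) * Real.log t) / 6 := by ring
    rw [e2]
    nlinarith [h7, h2]

/-- PROOF SKETCH. If `β > γ ≥ 0` take `n → ∞` and `m = ⌊n ^ β⌋₊ ≥ 1`, so `m ≥ n ^ β / 2`: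
`n ^ β / 2 ≤ C n ^ γ` for all large `n`, a contradiction (`n ^ (β - γ) → ∞`). -/
theorem num_nec (β γ C : ℝ) (hγ : 0 ≤ γ) (n₀ : ℕ)
    (h : ∀ n : ℕ, n₀ ≤ n → ∀ m : ℕ, 1 ≤ m → (m : ℝ) ≤ (n : ℝ) ^ β → (m : ℝ) ≤ C * (n : ℝ) ^ γ) :
    β ≤ γ := by
  by_contra hcon
  rw [not_le] at hcon
  have hβ : 0 < β := lt_of_le_of_lt hγ hcon
  have h1 : Filter.Tendsto (fun n : ℕ => (n : ℝ) ^ (β - γ)) Filter.atTop Filter.atTop :=
    (tendsto_rpow_atTop (by linarith)).comp tendsto_natCast_atTop_atTop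
  obtain ⟨n, hn1, hn2, hn3⟩ := ((h1.eventually_ge_atTop (2 * C)).and
    ((Filter.eventually_ge_atTop n₀).and (Filter.eventually_ge_atTop 1))).exists
  have hn : (1 : ℝ) ≤ n := by exact_mod_cast hn3
  have hn0 : (0 : ℝ) < n := by linarith
  have hb1 : (1 : ℝ) ≤ (n : ℝ) ^ β := Real.one_le_rpow hn hβ.le
  have hm1 : 1 ≤ ⌊(n : ℝ) ^ β⌋₊ := Nat.le_floor (by exact_mod_cast hb1)
  have hm2 : ((⌊(n : ℝ) ^ β⌋₊ : ℕ) : ℝ) ≤ (n : ℝ) ^ β := Nat.floor_le (by linarith)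
  have h2 := h n hn2 _ hm1 hm2
  have h3 : (n : ℝ) ^ β < ((⌊(n : ℝ) ^ β⌋₊ : ℕ) : ℝ) + 1 := Nat.lt_floor_add_one _
  have h4 : (1 : ℝ) ≤ ((⌊(n : ℝ) ^ β⌋₊ : ℕ) : ℝ) := by exact_mod_cast hm1
  have h5 : (n : ℝ) ^ β = (n : ℝ) ^ (β - γ) * (n : ℝ) ^ γ := by
    rw [← Real.rpow_add hn0, sub_add_cancel]
  have h6 : (0 : ℝ) < (n : ℝ) ^ γ := Real.rpow_pos_of_pos hn0 _
  have h7 : 2 * C * (n : ℝ) ^ γ ≤ (n : ℝ) ^ (β - γ) * (n : ℝ) ^ γ :=
    mul_le_mul_of_nonneg_right hn1 h6.le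
  rw [← h5] at h7
  linarith

end Pool.Agent.H248.TW
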