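import Pool.Agent.H248.TW.Fam
import Pool.Agent.H248.TW.NumS
import Pool.Agent.H248.TW.NumT
import Pool.Agent.H248.ZP.Transfer
import Pool.Agent.H248.ZP.Upper
import Pool.Agent.H248.ZP.Nec

/-!
# `K_{3,t}`: the lower bound and the necessary condition
-/

set_option autoImplicit false

namespace Pool.Agent.H248.TW

open Finset

/-- one full row -/
theorem one_row (m n t : ℕ) (hm : 1 ≤ m) (ht : 1 ≤ t) :
    ∃ E : Finset (Fin m × Fin n),
      (∀ (A : Finset (Fin m)) (B : Finset (Fin n)), A.card = 3 → B.card = t →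
        ∃ a ∈ A, ∃ b ∈ B, (a, b) ∉ E) ∧ E.card = n := by
  classical
  refine ⟨{⟨0, hm⟩} ×ˢ Finset.univ, ?_, ?_⟩
  · intro A B hA hB
    obtain ⟨a, ha, hne⟩ : ∃ a ∈ A, a ≠ (⟨0, hm⟩ : Fin m) :=
      Finset.exists_mem_ne (by omega) _
    obtain ⟨b, hb⟩ : B.Nonempty := Finset.card_pos.1 (by omega)
    refine ⟨a, ha, b, hb, fun h => hne ?_⟩
    exact Finset.mem_singleton.1 (Finset.mem_product.1 h).1
  · rw [Finset.card_product, Finset.card_singleton, Finset.card_univ, Fintype.card_fin, one_mul]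

/-- one full column -/
theorem one_col (m n t : ℕ) (hn : 1 ≤ n) (ht : 2 ≤ t) :
    ∃ E : Finset (Fin m × Fin n),
      (∀ (A : Finset (Fin m)) (B : Finset (Fin n)), A.card = 3 → B.card = t →
        ∃ a ∈ A, ∃ b ∈ B, (a, b) ∉ E) ∧ E.card = m := by
  classical
  refine ⟨Finset.univ ×ˢ {⟨0, hn⟩}, ?_, ?_⟩
  · intro A B hA hB
    obtain ⟨b, hb, hne⟩ : ∃ b ∈ B, b ≠ (⟨0, hn⟩ : Fin n) :=
      Finset.exists_mem_ne (by omega) _
    obtain ⟨a, ha⟩ : A.Nonempty := Finset.card_pos.1 (by omega)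
    refine ⟨a, ha, b, hb, fun h => hne ?_⟩
    exact Finset.mem_singleton.1 (Finset.mem_product.1 h).2
  · rw [Finset.card_product, Finset.card_singleton, Finset.card_univ, Fintype.card_fin, mul_one]

theorem lower3 (r : ℕ) (hr : 1 ≤ r) :
    ∃ c : ℝ, 0 < c ∧ ∀ t n m : ℕ, 2 ^ r * (r + 1) * (2 * r + 1) < t → 1 ≤ n → 1 ≤ m →
      (m : ℝ) ≤ (n : ℝ) ^ (((2 ^ (r - 1) * (r + 2) : ℕ) : ℝ) / 6) →
      ∃ E : Finset (Fin m × Fin n),
        (∀ (A : Finset (Fin m)) (B : Finset (Fin n)), A.card = 3 → B.card = t →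
          ∃ a ∈ A, ∃ b ∈ B, (a, b) ∉ E) ∧
        c * (m * (n : ℝ) ^ ((2 : ℝ) / 3)) ≤ E.card := by
  classical
  obtain ⟨ρ, hρ⟩ : ∃ ρ : ℕ, ρ = 2 ^ (r - 1) * (r + 2) := ⟨_, rfl⟩
  have hρ1 : r + 2 ≤ ρ := by
    rw [hρ]
    exact Nat.le_mul_of_pos_left _ (by positivity)
  have hρ2 : r + 2 ≤ 2 ^ ρ := hρ1.trans (Nat.lt_two_pow_self).le
  refine ⟨1 / (8 * 2 ^ ρ * ((r : ℝ) + 1)), by positivity, ?_⟩
  intro t n m ht hn hm hmn
  rw [← hρ] at hmn
  have hpos : 0 < 2 ^ r * (r + 1) * (2 * r + 1) := by positivity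
  by_cases hn8 : 8 ≤ n
  · obtain ⟨l, M, hl, hln, hM, hfin⟩ := num3 r ρ hr hρ2 n m hn8 hm hmn
    rw [hρ] at hM
    obtain ⟨V, W, _, _, _, _, D, q1, q2, q3, q4⟩ := exists_family3 r l M hr hl hM
    obtain ⟨E, hE1, hE2⟩ := Pool.Agent.H248.ZP.transfer D 3 t m n ((2 ^ l) ^ 2) (by omega)
      (by omega) (by rw [q1]; exact hln) (fun v => (q3 v).ge) (fun A hA => (q4 A hA).trans_lt ht)
    refine ⟨E, hE1, ?_⟩
    rw [q2] at hE2
    have h1 : ((min m M * (2 ^ l) ^ 2 : ℕ) : ℝ) ≤ E.card := by exact_mod_cast hE2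
    refine le_trans (le_of_eq (by ring)) (hfin.trans h1)
  · have ht2 : 2 ≤ t := by omega
    obtain ⟨E, hE1, hE2⟩ := one_col m n t hn ht2
    refine ⟨E, hE1, ?_⟩
    rw [hE2]
    have hn0 : (0 : ℝ) ≤ n := Nat.cast_nonneg n
    have h1 : (n : ℝ) ^ ((2 : ℝ) / 3) ≤ 8 := by
      have h2 : (n : ℝ) ≤ 8 := by exact_mod_cast (by omega : n ≤ 8)
      have h3 : (1 : ℝ) ≤ n := by exact_mod_cast hn
      calc (n : ℝ) ^ ((2 : ℝ) / 3) ≤ (n : ℝ) ^ (1 : ℝ) :=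
            Real.rpow_le_rpow_of_exponent_le h3 (by norm_num)
        _ = n := Real.rpow_one _
        _ ≤ 8 := h2
    have hm0 : (0 : ℝ) ≤ m := Nat.cast_nonneg m
    have hc : 1 / (8 * 2 ^ ρ * ((r : ℝ) + 1)) ≤ 1 / 8 := by
      apply one_div_le_one_div_of_le (by norm_num)
      have h4 : (1 : ℝ) ≤ 2 ^ ρ := one_le_pow₀ (by norm_num)
      have h5 : (1 : ℝ) ≤ (r : ℝ) + 1 := by
        have : (0 : ℝ) ≤ r := Nat.cast_nonneg r
        linarith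
      nlinarith
    calc 1 / (8 * 2 ^ ρ * ((r : ℝ) + 1)) * (m * (n : ℝ) ^ ((2 : ℝ) / 3))
        ≤ 1 / 8 * (m * 8) := by gcongr
      _ = m := by ring

/-- the transposed bound of Kővári, Sós and Turán -/
theorem upper_transposed (s t : ℕ) (hs : 1 ≤ s) (ht : 1 ≤ t) (m n : ℕ) (hm : 1 ≤ m)
    (E : Finset (Fin m × Fin n))
    (hE : ∀ (A : Finset (Fin m)) (B : Finset (Fin n)), A.card = s → B.card = t →
      ∃ a ∈ A, ∃ b ∈ B, (a, b) ∉ E) :
    (E.card : ℝ) ≤ (s : ℝ) ^ (1 / (t : ℝ)) * n * (m : ℝ) ^ (1 - 1 / (t : ℝ)) + t * m := by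
  classical
  have h := Pool.Agent.H248.ZP.upper t s ht hs n m hm (E.map (Equiv.prodComm _ _).toEmbedding)
    (fun A B hA hB => by
      obtain ⟨a, ha, b, hb, hab⟩ := hE B A hB hA
      refine ⟨b, hb, a, ha, fun h => hab ?_⟩
      rw [Finset.mem_map] at h
      obtain ⟨p, hp, hpe⟩ := h
      have : p = (a, b) := by
        have h1 := congrArg Prod.snd hpe
        have h2 := congrArg Prod.fst hpe
        exact Prod.ext h1 h2
      rwa [← this])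
  rwa [Finset.card_map] at h

end Pool.Agent.H248.TW
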